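import Pool.Agent.H76.SD.CodB

/-!
# SETH for semidefinite programming: assembly
-/

namespace Pool.Agent.H76.SD

open Finset
open Pool.Agent.H1.LP (Loc PD Viol Sys supp ip val Agree FS Typ kk S_MAIN S_BASE S_LOC S_ENC S_FORM
  ext arith1)

theorem cod (hBLK : T_BLK) (hBAL : T_BAL) (hEVA : T_EVA) (hCEL : T_CEL) (hBASE : S_BASE)
    (hLOC : S_LOC) (hENC : S_ENC) (hFORM : S_FORM) : T_COD := by
  classical
  intro E g t n B M N0 P hE hg hkB3 hBn h1 h2 h3 h4 h5 h6 hsz
  have hkB : 2 * kk E ≤ B := by omega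
  obtain ⟨ht1, h9t, hkd, hB0⟩ := arith1 hE hkB
  have hkd2 : kk E + B / E ≤ B - 8 * (B / E) := by
    have h7 : B / E ≤ B / 16 := Nat.div_le_div_left hE (by norm_num)
    omega
  obtain ⟨p, hp, hple, T, Y, hT, hsupp, hz⟩ := hBASE E B (by omega) (by
    show kk E ≤ B
    omega)
  have := hp
  obtain ⟨S, hS⟩ := hLOC p B (4 * E * B) (B / E) (B - 8 * (B / E)) Y ht1
  obtain ⟨b, hb⟩ : ∃ b, 4 * E * g = b := ⟨_, rfl⟩
  have hbE : b = 4 * g * E := by rw [← hb]; ring
  unfold err
  simp only [hb] at hBn h5 ⊢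
  obtain ⟨asg, dec, cl, hda, hsat0, hcard⟩ := hENC n B b hBn
  have hsat : ∀ T v y, Clause.Sat (n := n) (cl T v) y ↔ ¬ Agree T (dec y) v := hsat0
  have hT' : ∀ i, (T i).card = kk E := hT
  have hrow : ∀ i, Y.A i ∈ S.La ∧ S.ga (Y.A i) = Y.be i := by
    intro i
    apply hS
    calc (supp (Y.A i)).card ≤ (T i).card := card_le_card (hsupp i)
      _ = kk E := hT' i
      _ ≤ _ := hkd
  have hQN : Fintype.card (Fin b → Bool) = (2 ^ (4 * g)) ^ E := by
    rw [Fintype.card_fun, Fintype.card_bool, Fintype.card_fin, ← pow_mul, hbE]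
  have hpR : (p : ℝ) ≤ 2 ^ (4 * E + 1) := by exact_mod_cast hple
  have hp0 : (0 : ℝ) < p := by exact_mod_cast (Fact.out : p.Prime).pos
  have hpN : 4 * p * B ≤ 2 ^ g := by
    refine le_trans ?_ h1
    gcongr
  have hpB : (p : ℝ) ^ B ≤ 2 ^ ((4 * E + 1) * B) := by
    rw [pow_mul]
    gcongr
  obtain ⟨ep, hep⟩ : ∃ ep : ℝ, ((E : ℝ) + 1) ^ B * (1 / 2) ^ t = ep := ⟨_, rfl⟩
  have hep0 : 0 ≤ ep := by rw [← hep]; positivity
  obtain ⟨La, hLa⟩ : ∃ La : ℝ, (2 : ℝ) ^ ((4 * E + 1) * B) = La := ⟨_, rfl⟩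
  have hLa0 : 0 ≤ La := by rw [← hLa]; positivity
  obtain ⟨D, hD⟩ : ∃ D : ℝ, (2 : ℝ) ^ (4 * g) = D := ⟨_, rfl⟩
  have hD0 : 0 < D := by rw [← hD]; positivity
  have hD1 : 1 ≤ D := by rw [← hD]; exact one_le_pow₀ (by norm_num)
  -- light sets
  have hblk : ∀ (r : ℕ) (V : (Fin B → Fin b → Bool) → Matrix (Fin r) (Fin r) ℝ),
      (∀ x, (V x).PosSemidef) →
      ∃ Li : Finset (Fin B → Fin b → Bool), (Li.card : ℝ) ≤ D ^ (11 * B + 3) * (r : ℝ) ^ 2 ∧
      num (fun al : Fin B → (Fin b → Bool) → ZMod p => r ≤ 2 ^ 2 ^ (2 * g) ∧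
        ¬ (∑ x, (PD S al x + ep + La * ind Li x) • V x).PosSemidef) ≤
        (1 / 2) ^ 2 ^ (2 * g) * Fintype.card (Fin B → (Fin b → Bool) → ZMod p) := by
    intro r V hV
    by_cases hr : r ≤ 2 ^ 2 ^ (2 * g)
    · obtain ⟨Li, c1, c2⟩ := hBLK E g B t r p (Fin b → Bool) S V hE hB0 hple hQN h2 h3 hr hV
      rw [hD] at c1
      rw [hep, hLa] at c2
      refine ⟨Li, c1, le_trans (le_of_eq ?_) c2⟩
      congr 1
      funext al
      simp [hr]
    · refine ⟨∅, by simp; positivity, ?_⟩
      have h8 : num (fun al : Fin B → (Fin b → Bool) → ZMod p => r ≤ 2 ^ 2 ^ (2 * g) ∧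
        ¬ (∑ x, (PD S al x + ep + La * ind ∅ x) • V x).PosSemidef) = 0 := by
        unfold num
        simp [hr]
      rw [h8]
      positivity
  choose LI hLI1 hLI2 using hblk
  -- the two kinds of blocks
  have hR := card_opt (b := b) T hT'
  obtain ⟨r, hr⟩ : ∃ r, 4 * E * B * 2 ^ (b * kk E) + 1 = r := ⟨_, rfl⟩
  rw [hr] at hR
  have e := Fintype.equivFinOfCardEq hR
  have hr8 : r ≤ 8 * E * B * 2 ^ (b * kk E) + 1 := by
    rw [← hr]
    gcongr
    norm_num
  have hrle : r ≤ 2 ^ 2 ^ (2 * g) := hr8.trans h5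
  obtain ⟨u, hu⟩ : ∃ u : (j : Fin M) → Fin r → (Fin B → Fin b → Bool) → ℝ,
    ∀ j a x, u j a x = dgf (P j) T asg cl (e.symm a) x := ⟨_, fun _ _ _ => rfl⟩
  have hu0 : ∀ j a x, 0 ≤ u j a x := by
    intro j a x
    rw [hu]
    exact dgf_nonneg (P j) T asg dec cl hda hsat _ x
  have hV2 : ∀ j x, (Matrix.diagonal (fun a => u j a x)).PosSemidef := fun j x =>
    Matrix.PosSemidef.diagonal (fun a => hu0 j a x)
  have hV1 : ∀ j i x, (blkm (P j) asg i x).PosSemidef := fun j i x => blkm_psd (P j) asg i x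
  -- the good table
  obtain ⟨al, hbal, hgood⟩ := exists_good (α := Fin B → (Fin b → Bool) → ZMod p)
    (ι := (Σ j : Fin M, Fin (P j).size) ⊕ Fin M) (fun al => ¬ Bal g al)
    (Sum.elim
      (fun q al => (P q.1).ord q.2 ≤ 2 ^ 2 ^ (2 * g) ∧
        ¬ (∑ x, (PD S al x + ep + La *
          ind (LI _ (blkm (P q.1) asg q.2) (hV1 q.1 q.2)) x) • blkm (P q.1) asg q.2 x).PosSemidef)
      (fun j al => r ≤ 2 ^ 2 ^ (2 * g) ∧
        ¬ (∑ x, (PD S al x + ep + La *
          ind (LI _ (fun x => Matrix.diagonal (fun a => u j a x)) (hV2 j)) x) •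
            Matrix.diagonal (fun a => u j a x)).PosSemidef))
    ((1 / 2) ^ 2 ^ (2 * g)) (hBAL E g B p (Fin b → Bool) hE hg hQN hpN)
    (by
      rintro (q | j)
      · exact hLI2 _ (blkm (P q.1) asg q.2) (hV1 q.1 q.2)
      · exact hLI2 _ (fun x => Matrix.diagonal (fun a => u j a x)) (hV2 j))
    (by
      refine le_trans ?_ h6
      gcongr
      simp only [Fintype.card_sum, Fintype.card_sigma, Fintype.card_fin]
      push_cast
      have h8 : ∑ j, ((P j).size : ℝ) ≤ M * N0 := by
        calc ∑ j, ((P j).size : ℝ) ≤ ∑ _j : Fin M, (N0 : ℝ) :=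
              sum_le_sum fun j _ => by exact_mod_cast hsz j
          _ = M * N0 := by simp
      linarith)
  have hbal : Bal g al := not_not.1 hbal
  have hg1 : ∀ j i, (P j).ord i ≤ 2 ^ 2 ^ (2 * g) →
      (∑ x, (PD S al x + ep + La *
          ind (LI _ (blkm (P j) asg i) (hV1 j i)) x) • blkm (P j) asg i x).PosSemidef := by
    intro j i hji
    by_contra hcon
    exact hgood (Sum.inl ⟨j, i⟩) ⟨hji, hcon⟩
  have hg2 : ∀ j, (∑ x, (PD S al x + ep + La *
          ind (LI _ (fun x => Matrix.diagonal (fun a => u j a x)) (hV2 j)) x) •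
            Matrix.diagonal (fun a => u j a x)).PosSemidef := by
    intro j
    by_contra hcon
    exact hgood (Sum.inr j) ⟨hrle, hcon⟩
  -- values of the pseudo-density
  obtain ⟨et, het⟩ : ∃ et : ℝ, 2 * (p : ℝ) ^ B / 2 ^ (g * (B / E + 1)) = et := ⟨_, rfl⟩
  have het0 : 0 ≤ et := by rw [← het]; positivity
  have het1 : et ≤ 2 * La / 2 ^ (g * (B / E + 1)) := by
    rw [← het, ← hLa]
    gcongr
  have het8 : et ≤ 1 / 8 := by
    refine het1.trans ?_
    rw [← hLa, div_le_iff₀ (by positivity)]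
    have h8 : (2 : ℝ) ^ ((4 * E + 1) * B) * 2 ^ 4 ≤ 2 ^ g := by
      rw [← pow_add]
      exact pow_le_pow_right₀ (by norm_num) (by omega)
    have h9 : (2 : ℝ) ^ g ≤ 2 ^ (g * (B / E + 1)) :=
      pow_le_pow_right₀ (by norm_num) (Nat.le_mul_of_pos_right _ (by omega))
    linarith
  have : Nonempty (Fin b → Bool) := ⟨fun _ => false⟩
  have hev := fun s0 (h : s0 = B / E) => hEVA p B (B - 8 * (B / E)) g s0 (Fin b → Bool) S al hbal
    hpN (by rw [h, het]; exact het8) (by omega)
  obtain ⟨hev1, hev2⟩ := hev (B / E) rfl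
  rw [het] at hev2
  -- the formula
  obtain ⟨m, phi, hm, hphi, hviol0⟩ := hFORM p B (4 * E * B) (kk E) b n T Y.A Y.be al dec cl hT'
    hsupp hsat0
  have hviol : ∀ y, viol (n := n) phi y =
    (univ.filter (fun i => ip (Y.A i) (val al (dec y)) ≠ Y.be i)).card := hviol0
  have hvlow : ∀ y, (4 * E - 3) * B ≤ viol (n := n) phi y := by
    intro y
    rw [hviol y]
    exact hz _
  have hvup : ∀ y, viol (n := n) phi y ≤ 4 * E * B := by
    intro y
    rw [hviol y]
    refine (card_le_univ _).trans ?_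
    rw [Fintype.card_fin]
  have hvm : ∀ y, viol (n := n) phi y ≤ m := by
    intro y
    unfold viol
    refine (card_le_univ _).trans ?_
    rw [Fintype.card_fin]
  have hm1 : 1 ≤ m := by
    have := (hvlow (fun _ => false)).trans (hvm _)
    have h4 : 1 ≤ (4 * E - 3) * B := Nat.mul_pos (by omega) hB0
    omega
  refine ⟨m, phi, hm1, hm, ?_, ?_, ?_⟩
  · intro a
    obtain ⟨i, v, -, hav, -⟩ := hphi a
    rw [hav]
    have := hcard (T i) v
    rw [hT' i] at this
    rw [mul_comm (kk E)] at this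
    exact this
  · intro y
    have h5 : ((m : ℝ) / 2 ^ (b * kk E)) ≤ 4 * E * B := by
      rw [div_le_iff₀ (by positivity)]
      exact_mod_cast hm
    have hE1 : (0 : ℝ) < E := by
      have : 0 < E := by omega
      exact_mod_cast this
    have hE3 : (16 : ℝ) ≤ E := by exact_mod_cast hE
    have h6 : (0 : ℝ) ≤ 1 - 1 / (E : ℝ) := by
      rw [sub_nonneg, div_le_one hE1]
      linarith
    have h7 : (((4 * E - 3) * B : ℕ) : ℝ) ≤ viol (n := n) phi y := by exact_mod_cast hvlow y
    have h8 : (((4 * E - 3) * B : ℕ) : ℝ) = (4 * E - 3) * B := by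
      rw [Nat.cast_mul, Nat.cast_sub (by omega)]
      push_cast
      ring
    rw [h8] at h7
    refine le_trans ?_ h7
    calc (1 - 1 / (E : ℝ)) * (m / 2 ^ (b * kk E)) ≤ (1 - 1 / (E : ℝ)) * (4 * E * B) := by gcongr
      _ = (4 * E - 4) * B := by
        field_simp
      _ ≤ (4 * E - 3) * B := by
        have : (0 : ℝ) ≤ B := by positivity
        nlinarith
  · intro J I de hde hdisj hcov href
    obtain ⟨W, hW⟩ : ∃ W : ℝ, ∑ j ∈ J, (1 + ∑ i ∈ I j, ((P j).ord i : ℝ) ^ 2) = W := ⟨_, rfl⟩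
    have hWj : ∀ j ∈ J, 1 + ∑ i ∈ I j, ((P j).ord i : ℝ) ^ 2 ≤ W := by
      intro j hj
      rw [← hW]
      exact single_le_sum (f := fun j => 1 + ∑ i ∈ I j, ((P j).ord i : ℝ) ^ 2)
        (fun j _ => by positivity) hj
    rw [hW]
    by_cases hbig : ∃ j ∈ J, ∃ i ∈ I j, 2 ^ 2 ^ (2 * g) < (P j).ord i
    · right
      obtain ⟨j, hj, i, hi, hji⟩ := hbig
      refine le_trans ?_ (hWj j hj)
      have h7 : ((P j).ord i : ℝ) ^ 2 ≤ ∑ i ∈ I j, ((P j).ord i : ℝ) ^ 2 :=
        single_le_sum (f := fun i => ((P j).ord i : ℝ) ^ 2) (fun i _ => by positivity) hi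
      have h8 : (2 : ℝ) ^ n ≤ ((P j).ord i : ℝ) := by
        have h9 : 2 ^ n ≤ (P j).ord i :=
          (Nat.pow_le_pow_right (by norm_num) h4).trans hji.le
        exact_mod_cast h9
      have h10 : (1 : ℝ) ≤ 2 ^ n := one_le_pow₀ (by norm_num)
      nlinarith
    left
    push Not at hbig
    -- the light set
    obtain ⟨Af, hAf⟩ : ∃ Af : Fin M → Finset (Fin B → Fin b → Bool), ∀ j, Af j =
      LI _ (fun x => Matrix.diagonal (fun a => u j a x)) (hV2 j) ∪
        (I j).biUnion (fun i => LI _ (blkm (P j) asg i) (hV1 j i)) := ⟨_, fun _ => rfl⟩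
    obtain ⟨A, hA⟩ : ∃ A, J.biUnion Af = A := ⟨_, rfl⟩
    have hAc : (A.card : ℝ) ≤ D ^ (11 * B + 3) * (8 * E * B * 2 ^ (b * kk E) + 1) ^ 2 * W := by
      have hRR : (r : ℝ) ≤ 8 * E * B * 2 ^ (b * kk E) + 1 := by exact_mod_cast hr8
      have hRR1 : (1 : ℝ) ≤ (8 * E * B * 2 ^ (b * kk E) + 1) ^ 2 := by
        apply one_le_pow₀
        have : (0 : ℝ) ≤ 8 * E * B * 2 ^ (b * kk E) := by positivity
        linarith
      calc (A.card : ℝ) ≤ ∑ j ∈ J, ((Af j).card : ℝ) := by
            rw [← hA]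
            exact_mod_cast card_biUnion_le
        _ ≤ ∑ j ∈ J, (D ^ (11 * B + 3) * (8 * E * B * 2 ^ (b * kk E) + 1) ^ 2 *
            (1 + ∑ i ∈ I j, ((P j).ord i : ℝ) ^ 2)) := by
            refine sum_le_sum fun j hj => ?_
            rw [hAf]
            have c1 : (((LI _ (fun x => Matrix.diagonal (fun a => u j a x)) (hV2 j) ∪
              (I j).biUnion (fun i => LI _ (blkm (P j) asg i) (hV1 j i))).card : ℕ) : ℝ) ≤
              ((LI _ (fun x => Matrix.diagonal (fun a => u j a x)) (hV2 j)).card : ℝ) +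
              ∑ i ∈ I j, ((LI _ (blkm (P j) asg i) (hV1 j i)).card : ℝ) := by
              exact_mod_cast (card_union_le _ _).trans (Nat.add_le_add_left card_biUnion_le _)
            have c2 := hLI1 _ (fun x => Matrix.diagonal (fun a => u j a x)) (hV2 j)
            have c3 : ∑ i ∈ I j, ((LI _ (blkm (P j) asg i) (hV1 j i)).card : ℝ) ≤
              ∑ i ∈ I j, D ^ (11 * B + 3) * ((P j).ord i : ℝ) ^ 2 :=
              sum_le_sum fun i _ => hLI1 _ (blkm (P j) asg i) (hV1 j i)
            rw [← mul_sum] at c3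
            have c4 : (r : ℝ) ^ 2 ≤ (8 * E * B * 2 ^ (b * kk E) + 1) ^ 2 := by gcongr
            have c5 : (0 : ℝ) ≤ ∑ i ∈ I j, ((P j).ord i : ℝ) ^ 2 := by positivity
            have c6 : D ^ (11 * B + 3) * ∑ i ∈ I j, ((P j).ord i : ℝ) ^ 2 ≤
              D ^ (11 * B + 3) * (8 * E * B * 2 ^ (b * kk E) + 1) ^ 2 *
                ∑ i ∈ I j, ((P j).ord i : ℝ) ^ 2 := by
              apply mul_le_mul_of_nonneg_right _ c5
              exact le_mul_of_one_le_right (by positivity) hRR1
            have c7 : D ^ (11 * B + 3) * (r : ℝ) ^ 2 ≤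
              D ^ (11 * B + 3) * (8 * E * B * 2 ^ (b * kk E) + 1) ^ 2 := by gcongr
            rw [mul_add, mul_one]
            linarith
        _ = _ := by rw [← mul_sum, hW]
    obtain ⟨H, hH⟩ : ∃ H : (Fin B → Fin b → Bool) → ℝ, ∀ x, H x = PD S al x + ep + La * ind A x :=
      ⟨_, fun _ => rfl⟩
    have hind : ∀ (A : Finset (Fin B → Fin b → Bool)) x, 0 ≤ ind A x := by
      intro A x
      unfold ind
      split_ifs <;> norm_num
    -- positivity on the blocks
    have hp1 : ∀ j ∈ J, ∀ i ∈ I j, (∑ x, H x • blkm (P j) asg i x).PosSemidef := by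
      intro j hj i hi
      simp only [hH]
      refine psd_mono _ (fun x => PD S al x + ep) La
        (LI _ (blkm (P j) asg i) (hV1 j i)) A (hV1 j i) hLa0 ?_ (hg1 j i (hbig j hj i hi))
      rw [← hA]
      refine subset_trans ?_ (subset_biUnion_of_mem Af hj)
      rw [hAf]
      exact subset_trans (subset_biUnion_of_mem
        (fun i => LI _ (blkm (P j) asg i) (hV1 j i)) hi) subset_union_right
    have hp2 : ∀ j ∈ J, ∀ a, 0 ≤ ∑ x, H x * u j a x := by
      intro j hj a
      refine diag_psd (u j) H ?_ a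
      simp only [hH]
      refine psd_mono _ (fun x => PD S al x + ep) La
        (LI _ (fun x => Matrix.diagonal (fun a => u j a x)) (hV2 j)) A (hV2 j) hLa0 ?_ (hg2 j)
      rw [← hA]
      refine subset_trans ?_ (subset_biUnion_of_mem Af hj)
      rw [hAf]
      exact subset_union_left
    have hp3 : ∀ j ∈ J, ∀ o, 0 ≤ ∑ x, H x * dgf (P j) T asg cl o x := by
      intro j hj o
      have := hp2 j hj (e o)
      simpa only [hu, Equiv.symm_apply_apply] using this
    choose ia va hva hav hne using hphi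
    have hkey := assemble J (fun j => univ.filter (fun x => asg x ∈ (P j).cell))
      (fun a => univ.filter (fun x => Agree (T (ia a)) x (va a))) H
      (fun j a x => (P j).loss (phi a) ((P j).pt (asg x))) A de (et + ep) La (4 * E * B)
      (by
        intro j hj j' hj' hne
        have := hdisj j hj j' hj' hne
        rw [Finset.disjoint_left]
        intro x hx hx'
        rw [mem_filter] at hx hx'
        exact Finset.disjoint_left.mp this hx.2 hx'.2)
      (by
        intro x
        obtain ⟨j, hj, hx⟩ := hcov (asg x)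
        exact ⟨j, hj, by simpa using hx⟩)
      (by
        intro j hj
        refine cell_ineq hCEL (P j) (I j) phi de asg H (href j hj) ?_ (hp1 j hj)
        have := hp3 j hj none
        rw [sum_filter]
        refine this.trans (le_of_eq (sum_congr rfl fun x _ => ?_))
        simp only [dgf]
        split_ifs <;> simp)
      (by
        intro j hj a
        have hext : ext (T (ia a)) (fun q => va a q.1) = va a := by
          funext q
          unfold Pool.Agent.H1.LP.ext
          split_ifs with h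
          · rfl
          · exact (hva a q h).symm
        have := hp3 j hj (some ⟨ia a, fun q => va a q.1⟩)
        simp only [dgf, hext] at this
        rw [sum_filter, sum_filter, ← sub_nonneg, ← sum_sub_distrib]
        refine this.trans (le_of_eq (sum_congr rfl fun x _ => ?_))
        rw [hav a]
        by_cases hx : asg x ∈ (P j).cell
        · by_cases hx2 : Agree (T (ia a)) x (va a)
          · simp only [hx, if_true, hx2, mem_filter, mem_univ, true_and]
            ring
          · simp only [hx, if_true, hx2, mem_filter, mem_univ, true_and, if_false]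
            ring
        · simp [hx])
      (by
        intro a
        have hV : Viol S (T (ia a)) (val al (va a)) :=
          ⟨Y.A (ia a), (hrow (ia a)).1, hsupp (ia a), by rw [(hrow (ia a)).2]; exact hne a⟩
        have h7 := hev2 (T (ia a)) (va a) (by rw [hT']; exact hkd2) hV
        have h8 := (le_abs_self _).trans h7
        simp only [hH]
        rw [sum_add_distrib, sum_add_distrib, sum_const, nsmul_eq_mul, ← mul_sum]
        linarith)
      (by
        intro x
        have h7 : (univ.filter (fun a => x ∈ univ.filter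
            (fun x => Agree (T (ia a)) x (va a)))).card ≤ 4 * E * B := by
          refine le_trans (le_of_eq ?_) (hvup (asg x))
          unfold viol
          congr 1
          ext a
          simp only [mem_filter, mem_univ, true_and]
          rw [hav a, hsat, hda, not_not]
        exact_mod_cast h7)
      (by
        refine hev1.trans (sum_le_sum fun x _ => ?_)
        rw [hH]
        have := mul_nonneg hLa0 (hind A x)
        linarith)
      (by linarith) hLa0 hde.le
    have hcX : (Fintype.card (Fin B → Fin b → Bool) : ℝ) = D ^ (E * B) := by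
      rw [Fintype.card_fun, Fintype.card_fin, hQN]
      push_cast
      rw [hD, pow_mul]
    rw [hcX] at hkey
    rw [hep, hLa, hD]
    have hDE : 0 < D ^ (E * B) := by positivity
    have h7 : de ≤ 16 * E * B * (et + ep) + 16 * E * B * La * (A.card / D ^ (E * B)) := by
      have h8 : de * (D ^ (E * B) / 4) ≤
        (16 * E * B * (et + ep) + 16 * E * B * La * (A.card / D ^ (E * B))) *
          (D ^ (E * B) / 4) := by
        refine hkey.trans (le_of_eq ?_)
        field_simp
        ring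
      exact le_of_mul_le_mul_right h8 (by positivity)
    refine h7.trans ?_
    have h9 : 16 * (E : ℝ) * B * (et + ep) ≤
      16 * E * B * (2 * La / 2 ^ (g * (B / E + 1)) + ep) := by gcongr
    have h10 : 16 * (E : ℝ) * B * La * (A.card / D ^ (E * B)) ≤
      16 * E * B * La * (D ^ (11 * B + 3) / D ^ (E * B)) *
        (8 * E * B * 2 ^ (b * kk E) + 1) ^ 2 * W := by
      calc 16 * (E : ℝ) * B * La * (A.card / D ^ (E * B)) ≤ 16 * (E : ℝ) * B * La *
            ((D ^ (11 * B + 3) * (8 * E * B * 2 ^ (b * kk E) + 1) ^ 2 * W) / D ^ (E * B)) := by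
            gcongr
        _ = _ := by ring
    linarith

end Pool.Agent.H76.SD
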