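import Pool.Agent.H76.SD.Targets

/-!
# SETH for semidefinite programming: abstract parts of the assembly
-/

namespace Pool.Agent.H76.SD

open Finset

/-- a good table exists -/
theorem exists_good {α ι : Type} [Fintype α] [Nonempty α] [Fintype ι] (bad0 : α → Prop)
    (bad : ι → α → Prop) (β : ℝ) (h0 : 4 * num bad0 ≤ Fintype.card α)
    (h : ∀ i, num (bad i) ≤ β * Fintype.card α) (hβ : Fintype.card ι * β ≤ 1 / 4) :
    ∃ al, ¬ bad0 al ∧ ∀ i, ¬ bad i al := by
  classical
  by_contra hcon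
  push Not at hcon
  have hsub : (univ : Finset α) ⊆ univ.filter bad0 ∪ univ.biUnion (fun i => univ.filter (bad i)) := by
    intro al _
    by_cases hb : bad0 al
    · exact mem_union_left _ (by simpa using hb)
    · obtain ⟨i, hi⟩ := hcon al hb
      exact mem_union_right _ (mem_biUnion.2 ⟨i, mem_univ _, by simpa using hi⟩)
  have h1 : (Fintype.card α : ℝ) ≤ num bad0 + ∑ i, num (bad i) := by
    have h2 := (card_le_card hsub).trans
      ((card_union_le _ _).trans (Nat.add_le_add_left card_biUnion_le _))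
    rw [card_univ] at h2
    have h3 : (Fintype.card α : ℝ) ≤ (((univ.filter bad0).card +
      ∑ i, (univ.filter (bad i)).card : ℕ) : ℝ) := by exact_mod_cast h2
    push_cast at h3
    unfold num
    convert h3
  have h4 : ∑ i, num (bad i) ≤ Fintype.card α / 4 := by
    calc ∑ i, num (bad i) ≤ ∑ _i : ι, β * Fintype.card α := sum_le_sum fun i _ => h i
      _ = (Fintype.card ι * β) * Fintype.card α := by
        rw [sum_const, card_univ, nsmul_eq_mul]
        ring
      _ ≤ 1 / 4 * Fintype.card α := by gcongr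
      _ = Fintype.card α / 4 := by ring
  have h5 : (0 : ℝ) < Fintype.card α := by exact_mod_cast Fintype.card_pos
  linarith

/-- the final inequality, abstractly -/
theorem assemble {X : Type} [Fintype X] [DecidableEq X] {M m : ℕ} (J : Finset (Fin M))
    (St : Fin M → Finset X) (Cb : Fin m → Finset X) (H : X → ℝ) (l : Fin M → Fin m → X → ℝ)
    (Li : Finset X) (de ka La v : ℝ)
    (hdisj : ∀ j ∈ J, ∀ j' ∈ J, j ≠ j' → Disjoint (St j) (St j')) (hcov : ∀ x, ∃ j ∈ J, x ∈ St j)
    (h1 : ∀ j ∈ J, de * ∑ x ∈ St j, H x ≤ ∑ x ∈ St j, H x * ∑ a, l j a x)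
    (h2 : ∀ j ∈ J, ∀ a, ∑ x ∈ St j, H x * l j a x ≤ ∑ x ∈ St j, if x ∈ Cb a then H x else 0)
    (h3 : ∀ a, ∑ x ∈ Cb a, H x ≤ ka * (Cb a).card + La * ∑ x ∈ Cb a, ind Li x)
    (h4 : ∀ x, ((univ.filter (fun a => x ∈ Cb a)).card : ℝ) ≤ v)
    (h5 : (Fintype.card X : ℝ) / 4 ≤ ∑ x, H x) (hka : 0 ≤ ka) (hLa : 0 ≤ La) (hde : 0 ≤ de) :
    de * (Fintype.card X / 4) ≤ v * ka * Fintype.card X + v * La * Li.card := by
  have part : ∀ F : X → ℝ, ∑ j ∈ J, ∑ x ∈ St j, F x = ∑ x, F x := by
    intro F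
    have hU : J.biUnion St = univ := by
      ext x
      simp only [mem_biUnion, mem_univ, iff_true]
      exact hcov x
    rw [← hU, sum_biUnion]
    intro j hj j' hj' hne
    exact hdisj j hj j' hj' hne
  have cnt : ∀ F : X → ℝ, (∀ x, 0 ≤ F x) → ∑ a, ∑ x ∈ Cb a, F x ≤ v * ∑ x, F x := by
    intro F hF
    calc ∑ a, ∑ x ∈ Cb a, F x = ∑ a, ∑ x, if x ∈ Cb a then F x else 0 := by
          refine sum_congr rfl fun a _ => ?_
          rw [← sum_filter]
          congr 1
          ext x
          simp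
      _ = ∑ x, ∑ a, if x ∈ Cb a then F x else 0 := sum_comm
      _ = ∑ x, ((univ.filter (fun a => x ∈ Cb a)).card : ℝ) * F x := by
          refine sum_congr rfl fun x _ => ?_
          rw [← sum_filter, sum_const, nsmul_eq_mul]
      _ ≤ ∑ x, v * F x := sum_le_sum fun x _ => mul_le_mul_of_nonneg_right (h4 x) (hF x)
      _ = v * ∑ x, F x := by rw [mul_sum]
  calc de * (Fintype.card X / 4) ≤ de * ∑ x, H x := by gcongr
    _ = ∑ j ∈ J, de * ∑ x ∈ St j, H x := by rw [← part H, mul_sum]
    _ ≤ ∑ j ∈ J, ∑ x ∈ St j, H x * ∑ a, l j a x := sum_le_sum h1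
    _ = ∑ j ∈ J, ∑ a, ∑ x ∈ St j, H x * l j a x := by
        refine sum_congr rfl fun j _ => ?_
        simp only [mul_sum]
        rw [sum_comm]
    _ ≤ ∑ j ∈ J, ∑ a, ∑ x ∈ St j, (if x ∈ Cb a then H x else 0) :=
        sum_le_sum fun j hj => sum_le_sum fun a _ => h2 j hj a
    _ = ∑ a, ∑ x, (if x ∈ Cb a then H x else 0) := by
        rw [sum_comm]
        exact sum_congr rfl fun a _ => part _
    _ = ∑ a, ∑ x ∈ Cb a, H x := by
        refine sum_congr rfl fun a _ => ?_
        rw [← sum_filter]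
        congr 1
        ext x
        simp
    _ ≤ ∑ a, (ka * (Cb a).card + La * ∑ x ∈ Cb a, ind Li x) := sum_le_sum fun a _ => h3 a
    _ = ka * ∑ a, ∑ x ∈ Cb a, (1 : ℝ) + La * ∑ a, ∑ x ∈ Cb a, ind Li x := by
        rw [sum_add_distrib, mul_sum, mul_sum]
        simp
    _ ≤ ka * (v * ∑ _x : X, (1 : ℝ)) + La * (v * ∑ x, ind Li x) := by
        have c1 := cnt (fun _ => 1) (fun _ => zero_le_one)
        have c2 := cnt (ind Li) (fun x => by
          unfold ind
          split_ifs <;> norm_num)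
        gcongr
    _ = v * ka * Fintype.card X + v * La * Li.card := by
        have e1 : ∑ x, ind Li x = Li.card := by
          unfold ind
          simp
        rw [e1, sum_const, card_univ, nsmul_eq_mul]
        ring

/-- monotonicity in the light set -/
theorem psd_mono {X : Type} [Fintype X] {r : ℕ} (V : X → Matrix (Fin r) (Fin r) ℝ) (f : X → ℝ)
    (La : ℝ) (A A' : Finset X) (hV : ∀ x, (V x).PosSemidef) (hLa : 0 ≤ La) (hA : A ⊆ A')
    (h : (∑ x, (f x + La * ind A x) • V x).PosSemidef) :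
    (∑ x, (f x + La * ind A' x) • V x).PosSemidef := by
  have e : ∑ x, (f x + La * ind A' x) • V x =
      ∑ x, (f x + La * ind A x) • V x + ∑ x, (La * (ind A' x - ind A x)) • V x := by
    rw [← sum_add_distrib]
    refine sum_congr rfl fun x _ => ?_
    rw [← add_smul]
    congr 1
    ring
  rw [e]
  refine h.add (Matrix.posSemidef_sum _ fun x _ => (hV x).smul ?_)
  apply mul_nonneg hLa
  unfold ind
  split_ifs with h1 h2 h2
  · norm_num
  · norm_num
  · exact absurd (hA h2) h1
  · norm_num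

/-- entries of a psd combination of diagonal matrices -/
theorem diag_psd {X : Type} [Fintype X] {r : ℕ} (u : Fin r → X → ℝ) (f : X → ℝ)
    (h : (∑ x, f x • Matrix.diagonal (fun a => u a x)).PosSemidef) (a : Fin r) :
    0 ≤ ∑ x, f x * u a x := by
  have h1 := h.diag_nonneg (i := a)
  rw [Matrix.sum_apply] at h1
  simpa using h1

end Pool.Agent.H76.SD
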