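import Pool.Agent.H76.SD.CodA
import Pool.Agent.H1.LP.Core2

/-!
# SETH for semidefinite programming: the blocks of the assembly
-/

namespace Pool.Agent.H76.SD

open Finset
open Pool.Agent.H1.LP (Loc PD Viol Sys supp ip val Agree FS Typ kk S_MAIN S_BASE S_LOC S_ENC S_FORM
  ext arith1)

/-- total loss as one affine functional -/
theorem loss_sum {n m : ℕ} (P : Relax n) (phi : Fin m → Clause n) (y : Fin P.dim → ℝ) :
    ∑ a, P.loss (phi a) y = ∑ k, (∑ a, P.w (phi a) k) * y k + ∑ a, P.w0 (phi a) := by
  unfold Relax.loss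
  rw [sum_add_distrib, sum_comm]
  congr 1
  exact sum_congr rfl fun k _ => by rw [sum_mul]

open Classical in
/-- the block of a constraint on a cell -/
noncomputable def blkm {n b B : ℕ} (P : Relax n) (asg : (Fin B → Fin b → Bool) → (Fin n → Bool))
    (i : Fin P.size) (x : Fin B → Fin b → Bool) : Matrix (Fin (P.ord i)) (Fin (P.ord i)) ℝ :=
  if asg x ∈ P.cell then P.A0 i + ∑ k, P.pt (asg x) k • P.A i k else 0

theorem blkm_psd {n b B : ℕ} (P : Relax n) (asg : (Fin B → Fin b → Bool) → (Fin n → Bool))
    (i : Fin P.size) (x : Fin B → Fin b → Bool) : (blkm P asg i x).PosSemidef := by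
  unfold blkm
  split_ifs with h
  · exact P.feas _ h i
  · exact Matrix.PosSemidef.zero

open Classical in
/-- the diagonal block of a cell: indicator and slacks of the losses -/
noncomputable def dgf {n b B R : ℕ} (P : Relax n) (T : Fin R → Finset (Fin B))
    (asg : (Fin B → Fin b → Bool) → (Fin n → Bool))
    (cl : Finset (Fin B) → (Fin B → Fin b → Bool) → Clause n) :
    Option (Σ i : Fin R, ({q // q ∈ T i} → (Fin b → Bool))) → (Fin B → Fin b → Bool) → ℝ
  | none => fun x => if asg x ∈ P.cell then 1 else 0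
  | some ⟨i, v⟩ => fun x => if asg x ∈ P.cell then
      (if Agree (T i) x (ext (T i) v) then 1 else 0) -
        P.loss (cl (T i) (ext (T i) v)) (P.pt (asg x)) else 0

theorem dgf_nonneg {n b B R : ℕ} (P : Relax n) (T : Fin R → Finset (Fin B))
    (asg : (Fin B → Fin b → Bool) → (Fin n → Bool))
    (dec : (Fin n → Bool) → (Fin B → Fin b → Bool))
    (cl : Finset (Fin B) → (Fin B → Fin b → Bool) → Clause n)
    (hda : ∀ x, dec (asg x) = x)
    (hsat : ∀ T v y, (cl T v).Sat y ↔ ¬ Agree T (dec y) v)
    (o : Option (Σ i : Fin R, ({q // q ∈ T i} → (Fin b → Bool)))) (x : Fin B → Fin b → Bool) :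
    0 ≤ dgf P T asg cl o x := by
  rcases o with _ | ⟨i, v⟩
  · simp only [dgf]
    split_ifs <;> norm_num
  · simp only [dgf]
    split_ifs with h1 h2
    · have h3 := P.bdd (asg x) h1 (cl (T i) (ext (T i) v))
      have h4 := (le_abs_self _).trans h3
      unfold Relax.loss
      linarith
    · have h3 := P.sound (asg x) h1 (cl (T i) (ext (T i) v)) (by
        rw [hsat, hda]
        exact h2)
      unfold Relax.loss
      linarith
    · exact le_rfl

theorem card_opt {B b R k : ℕ} (T : Fin R → Finset (Fin B)) (hT : ∀ i, (T i).card = k) :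
    Fintype.card (Option (Σ i : Fin R, ({q // q ∈ T i} → (Fin b → Bool)))) =
      R * 2 ^ (b * k) + 1 := by
  have h : ∀ i : Fin R, Fintype.card ({j // j ∈ T i} → (Fin b → Bool)) = 2 ^ (b * k) := by
    intro i
    simp [hT i, pow_mul]
  simp only [Fintype.card_option, Fintype.card_sigma, h, Fintype.card_fin,
    sum_const, card_univ, smul_eq_mul]

/-- a refutation on a cell is a linear inequality -/
theorem cell_ineq (hCEL : T_CEL) {n m b B : ℕ} (P : Relax n) (I : Finset (Fin P.size))
    (phi : Fin m → Clause n) (de : ℝ) (asg : (Fin B → Fin b → Bool) → (Fin n → Bool))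
    (H : (Fin B → Fin b → Bool) → ℝ) (href : P.RefutesBy I phi de)
    (h0 : 0 ≤ ∑ x ∈ univ.filter (fun x => asg x ∈ P.cell), H x)
    (hI : ∀ i ∈ I, (∑ x, H x • blkm P asg i x).PosSemidef) :
    de * ∑ x ∈ univ.filter (fun x => asg x ∈ P.cell), H x ≤
      ∑ x ∈ univ.filter (fun x => asg x ∈ P.cell),
        H x * ∑ a, P.loss (phi a) (P.pt (asg x)) := by
  have h := hCEL (Fin B → Fin b → Bool) (univ.filter (fun x => asg x ∈ P.cell)) P.dim P.size P.ord
    P.A P.A0 (fun x => P.pt (asg x)) (fun k => ∑ a, P.w (phi a) k) (∑ a, P.w0 (phi a)) I H de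
    (fun x hx i _ => P.feas (asg x) (by simpa using hx) i)
    (fun y hy => by
      rw [← loss_sum]
      exact href y hy) h0
    (fun i hi => by
      have e : ∑ x ∈ univ.filter (fun x => asg x ∈ P.cell),
          H x • (P.A0 i + ∑ k, P.pt (asg x) k • P.A i k) = ∑ x, H x • blkm P asg i x := by
        rw [sum_filter]
        refine sum_congr rfl fun x _ => ?_
        unfold blkm
        split_ifs <;> simp
      rw [e]
      exact hI i hi)
  refine h.trans (le_of_eq ?_)
  refine sum_congr rfl fun x _ => ?_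
  rw [loss_sum]

end Pool.Agent.H76.SD
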