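import Pool.Agent.H76.SD.Targets2
import Pool.Agent.H76.SD.CodB

/-!
# SETH for convex programming: the blocks of the assembly
-/

namespace Pool.Agent.H76.CX

open Finset
open Pool.Agent.H1.LP (Loc PD Viol Sys supp ip val Agree FS Typ kk S_MAIN S_BASE S_LOC S_ENC S_FORM
  ext arith1)
open Pool.Agent.H76.SD (num ind Bal MM lev T_COR T_CL1 T_CL2 T_BLN T_BLK T_BAL T_EVA)

theorem num_mono {α : Type} [Fintype α] {R R' : α → Prop} (h : ∀ a, R a → R' a) :
    num R ≤ num R' := by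
  classical
  unfold num
  have : univ.filter R ⊆ univ.filter R' := fun a ha => by
    rw [mem_filter] at ha ⊢
    exact ⟨ha.1, h a ha.2⟩
  exact_mod_cast card_le_card this

/-- the barycenters of all measures above the corrected pseudo-density lie in `K` -/
def Gd {p B d κ : ℕ} [NeZero p] {Q : Type} [Fintype Q] (S : Loc p B d)
    (al : Fin B → Q → ZMod p) (ep La : ℝ) (Li C : Finset (Fin B → Q)) (K : Set (Fin κ → ℝ))
    (G : (Fin B → Q) → Fin κ → ℝ) : Prop :=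
  ∀ H : (Fin B → Q) → ℝ, (∀ x, PD S al x + 2 * ep + La * ind Li x ≤ H x) → 0 < ∑ x ∈ C, H x →
    (fun a => (∑ x ∈ C, H x * G x a) / ∑ x ∈ C, H x) ∈ K

/-- constraints of bounded dimension -/
theorem blkA (hBLC : T_BLC) (hBRC : T_BRC) {E g B t κ s M0 p : ℕ} [Fact p.Prime] {Q : Type}
    [Fintype Q] [DecidableEq Q] (S : Loc p B (B - 8 * (B / E))) (C : Finset (Fin B → Q))
    (K : Set (Fin κ → ℝ)) (G : (Fin B → Q) → Fin κ → ℝ)
    (hE : 16 ≤ E) (hB : 1 ≤ B) (hp : p ≤ 2 ^ (4 * E + 1)) (hQ : Fintype.card Q = (2 ^ (4 * g)) ^ E)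
    (h2 : (4 * E + 1) * B + t + 4 ≤ g) (h3 : (E + 1) ^ B ≤ 2 ^ (4 * g)) (hκ : κ ≤ 2 ^ s)
    (hM0 : 2 * (2 ^ s + 1) * 2 ^ (g + 4 * g * E * B) ≤ M0)
    (hK : Convex ℝ K) (hG : ∀ x ∈ C, G x ∈ K) :
    ∃ Li : Finset (Fin B → Q), (Li.card : ℝ) ≤ (2 ^ (4 * g)) ^ (11 * B + 3) * ((κ : ℝ) + 1) ^ 2 ∧
      num (fun al : Fin B → Q → ZMod p =>
        ¬ Gd S al (((E : ℝ) + 1) ^ B * (1 / 2) ^ t) (2 ^ ((4 * E + 1) * B)) Li C K G) ≤
        ((M0 : ℝ) + 1) ^ (2 ^ s + 1) * (1 / 2) ^ 2 ^ (2 * g) *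
          Fintype.card (Fin B → Q → ZMod p) := by
  have hM1 : 0 < M0 := lt_of_lt_of_le (by positivity) hM0
  obtain ⟨Li, c1, c2⟩ := hBLC E g B t (κ + 1) M0 p Q S C
    (fun x => (Fin.cons 1 (G x) : Fin (κ + 1) → ℝ)) hE hB hp hQ h2 h3 hM1 (by
      refine le_trans ?_ hM0
      gcongr)
  refine ⟨Li, by exact_mod_cast c1, ?_⟩
  have hM2 : (1 : ℝ) ≤ (M0 : ℝ) + 1 := by
    have : (0 : ℝ) ≤ M0 := Nat.cast_nonneg _
    linarith
  refine le_trans (num_mono ?_) (c2.trans ?_)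
  · intro al hbad hgood
    apply hbad
    intro H hH hpos
    refine hBRC (Fin B → Q) C κ K G H hK hG hpos ?_
    intro f f0 hf
    have e : ∀ x, ∑ a, (Fin.cons f0 f : Fin (κ + 1) → ℝ) a *
        (Fin.cons 1 (G x) : Fin (κ + 1) → ℝ) a = ∑ a, f a * G x a + f0 := by
      intro x
      rw [Fin.sum_univ_succ]
      simp only [Fin.cons_zero, Fin.cons_succ, mul_one]
      rw [add_comm]
    have h4 := hgood (Fin.cons f0 f) (fun x hx => by
      rw [e]
      exact hf x hx)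
    refine h4.trans (sum_le_sum fun x hx => ?_)
    rw [e]
    exact mul_le_mul_of_nonneg_right (hH x) (hf x hx)
  · gcongr

/-- monotonicity in the measure -/
theorem psd_mono2 {X : Type} [Fintype X] {r : ℕ} (V : X → Matrix (Fin r) (Fin r) ℝ) (f h : X → ℝ)
    (hV : ∀ x, (V x).PosSemidef) (hf : ∀ x, f x ≤ h x)
    (hp : (∑ x, f x • V x).PosSemidef) : (∑ x, h x • V x).PosSemidef := by
  have e : ∑ x, h x • V x = ∑ x, f x • V x + ∑ x, (h x - f x) • V x := by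
    rw [← sum_add_distrib]
    refine sum_congr rfl fun x _ => ?_
    rw [← add_smul]
    congr 1
    ring
  rw [e]
  exact hp.add (Matrix.posSemidef_sum _ fun x _ => (hV x).smul (sub_nonneg.2 (hf x)))

/-- semidefinite constraints -/
theorem blkB (hBLK : T_BLK) {E g B t κ p : ℕ} [Fact p.Prime] {Q : Type}
    [Fintype Q] [DecidableEq Q] (S : Loc p B (B - 8 * (B / E))) (C : Finset (Fin B → Q))
    (K : Set (Fin κ → ℝ)) (G : (Fin B → Q) → Fin κ → ℝ)
    (hE : 16 ≤ E) (hB : 1 ≤ B) (hp : p ≤ 2 ^ (4 * E + 1)) (hQ : Fintype.card Q = (2 ^ (4 * g)) ^ E)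
    (h2 : (4 * E + 1) * B + t + 4 ≤ g) (h3 : (E + 1) ^ B ≤ 2 ^ (4 * g))
    (hK : IsPsd K) (hG : ∀ x ∈ C, G x ∈ K) :
    ∃ Li : Finset (Fin B → Q), (Li.card : ℝ) ≤ (2 ^ (4 * g)) ^ (11 * B + 3) * κ ∧
      num (fun al : Fin B → Q → ZMod p => κ ≤ 2 ^ 2 ^ (2 * g) ∧
        ¬ Gd S al (((E : ℝ) + 1) ^ B * (1 / 2) ^ t) (2 ^ ((4 * E + 1) * B)) Li C K G) ≤
        (1 / 2) ^ 2 ^ (2 * g) * Fintype.card (Fin B → Q → ZMod p) := by
  classical
  obtain ⟨r, h, rfl⟩ := hK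
  by_cases hr : r ≤ 2 ^ 2 ^ (2 * g)
  swap
  · refine ⟨∅, by simp; positivity, ?_⟩
    have h8 : num (fun al : Fin B → Q → ZMod p => κ ≤ 2 ^ 2 ^ (2 * g) ∧
        ¬ Gd S al (((E : ℝ) + 1) ^ B * (1 / 2) ^ t) (2 ^ ((4 * E + 1) * B)) ∅ C
          {z | (mat r (fun a => z (Fin.cast h a))).PosSemidef} G) = 0 := by
      have h9 : ¬ κ ≤ 2 ^ 2 ^ (2 * g) := by
        rw [← h]
        intro h10
        have : r ≤ r * r := Nat.le_mul_self r
        omega
      unfold num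
      simp [h9]
    rw [h8]
    positivity
  obtain ⟨V, hV⟩ : ∃ V : (Fin B → Q) → Matrix (Fin r) (Fin r) ℝ, ∀ x,
    V x = if x ∈ C then mat r (fun a => G x (Fin.cast h a)) else 0 := ⟨_, fun _ => rfl⟩
  have hVp : ∀ x, (V x).PosSemidef := by
    intro x
    rw [hV]
    split_ifs with hx
    · exact hG x hx
    · exact Matrix.PosSemidef.zero
  obtain ⟨Li, c1, c2⟩ := hBLK E g B t r p Q S V hE hB hp hQ h2 h3 hr hVp
  refine ⟨Li, ?_, le_trans (num_mono ?_) c2⟩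
  · refine c1.trans (le_of_eq ?_)
    rw [← h]
    push_cast
    ring
  · rintro al ⟨-, hbad⟩ hgood
    apply hbad
    intro H hH hpos
    have h4 : (∑ x, H x • V x).PosSemidef := by
      refine psd_mono2 V _ H hVp (fun x => ?_) hgood
      refine le_trans ?_ (hH x)
      have : 0 ≤ ((E : ℝ) + 1) ^ B * (1 / 2) ^ t := by positivity
      linarith
    have h5 : mat r (fun a => (∑ x ∈ C, H x * G x (Fin.cast h a)) / ∑ x ∈ C, H x) =
        (∑ x ∈ C, H x)⁻¹ • ∑ x, H x • V x := by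
      ext u v
      rw [Matrix.smul_apply, Matrix.sum_apply, smul_eq_mul]
      have e1 : ∑ x, (H x • V x) u v = ∑ x ∈ C, H x * G x (Fin.cast h (finProdFinEquiv (u, v))) := by
        rw [← sum_filter_add_sum_filter_not univ (fun x => x ∈ C)]
        have e2 : ∑ x with x ∉ C, (H x • V x) u v = 0 := by
          apply sum_eq_zero
          intro x hx
          rw [hV, if_neg (mem_filter.1 hx).2]
          simp
        rw [e2, add_zero]
        have e3 : univ.filter (fun x => x ∈ C) = C := by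
          ext x
          simp
        rw [e3]
        refine sum_congr rfl fun x hx => ?_
        rw [hV, if_pos hx]
        simp [mat]
      rw [e1]
      simp only [mat, Matrix.of_apply]
      rw [div_eq_inv_mul]
    show (mat r (fun a => (∑ x ∈ C, H x * G x (Fin.cast h a)) / ∑ x ∈ C, H x)).PosSemidef
    rw [h5]
    exact h4.smul (inv_nonneg.2 hpos.le)

/-- all constraints -/
theorem blkC (hBLK : T_BLK) (hBLC : T_BLC) (hBRC : T_BRC) {E g B t κ s M0 p : ℕ} [Fact p.Prime]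
    {Q : Type} [Fintype Q] [DecidableEq Q] (S : Loc p B (B - 8 * (B / E)))
    (C : Finset (Fin B → Q)) (K : Set (Fin κ → ℝ)) (G : (Fin B → Q) → Fin κ → ℝ)
    (hE : 16 ≤ E) (hB : 1 ≤ B) (hp : p ≤ 2 ^ (4 * E + 1)) (hQ : Fintype.card Q = (2 ^ (4 * g)) ^ E)
    (h2 : (4 * E + 1) * B + t + 4 ≤ g) (h3 : (E + 1) ^ B ≤ 2 ^ (4 * g))
    (hM0 : 2 * (2 ^ s + 1) * 2 ^ (g + 4 * g * E * B) ≤ M0) (R1 : ℝ) (hR : (2 : ℝ) ^ (s + 2) ≤ R1)
    (hK : Convex ℝ K) (hG : ∀ x ∈ C, G x ∈ K) (h : κ ≤ 2 ^ s ∨ IsPsd K) :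
    ∃ Li : Finset (Fin B → Q),
      (1 ≤ κ → (Li.card : ℝ) ≤ (2 ^ (4 * g)) ^ (11 * B + 3) * R1 * κ) ∧
      num (fun al : Fin B → Q → ZMod p => κ ≤ 2 ^ 2 ^ (2 * g) ∧
        ¬ Gd S al (((E : ℝ) + 1) ^ B * (1 / 2) ^ t) (2 ^ ((4 * E + 1) * B)) Li C K G) ≤
        ((M0 : ℝ) + 1) ^ (2 ^ s + 1) * (1 / 2) ^ 2 ^ (2 * g) *
          Fintype.card (Fin B → Q → ZMod p) := by
  have hR0 : (1 : ℝ) ≤ R1 := le_trans (one_le_pow₀ (by norm_num)) hR
  rcases h with h | h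
  · obtain ⟨Li, c1, c2⟩ := blkA hBLC hBRC S C K G hE hB hp hQ h2 h3 h hM0 hK hG
    refine ⟨Li, fun hk => c1.trans ?_, le_trans (num_mono fun al hal => hal.2) c2⟩
    have h4 : ((κ : ℝ) + 1) ^ 2 ≤ R1 * κ := by
      have h5 : (1 : ℝ) ≤ κ := by exact_mod_cast hk
      have h6 : (κ : ℝ) ≤ 2 ^ s := by exact_mod_cast h
      have h7 : (2 : ℝ) ^ (s + 2) = 4 * 2 ^ s := by ring
      have h8 : ((κ : ℝ) + 1) ^ 2 ≤ 4 * κ * κ := by nlinarith
      have h9 : 4 * (κ : ℝ) * κ ≤ 4 * 2 ^ s * κ := by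
        apply mul_le_mul_of_nonneg_right _ (by linarith)
        linarith
      have h10 : 4 * (2 : ℝ) ^ s * κ ≤ R1 * κ := by
        apply mul_le_mul_of_nonneg_right _ (by linarith)
        linarith
      linarith
    calc (2 ^ (4 * g)) ^ (11 * B + 3) * ((κ : ℝ) + 1) ^ 2 ≤
          (2 ^ (4 * g)) ^ (11 * B + 3) * (R1 * κ) := mul_le_mul_of_nonneg_left h4 (by positivity)
      _ = _ := by ring
  · obtain ⟨Li, c1, c2⟩ := blkB hBLK S C K G hE hB hp hQ h2 h3 h hG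
    refine ⟨Li, fun _ => c1.trans ?_, c2.trans ?_⟩
    · have h4 : (2 ^ (4 * g)) ^ (11 * B + 3) * 1 * (κ : ℝ) ≤
          (2 ^ (4 * g)) ^ (11 * B + 3) * R1 * κ := by gcongr
      linarith
    · have hM2 : (1 : ℝ) ≤ ((M0 : ℝ) + 1) ^ (2 ^ s + 1) := by
        apply one_le_pow₀
        have : (0 : ℝ) ≤ M0 := Nat.cast_nonneg _
        linarith
      have h4 : 1 * (1 / 2 : ℝ) ^ 2 ^ (2 * g) * Fintype.card (Fin B → Q → ZMod p) ≤
          ((M0 : ℝ) + 1) ^ (2 ^ s + 1) * (1 / 2) ^ 2 ^ (2 * g) *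
          Fintype.card (Fin B → Q → ZMod p) := by gcongr
      linarith

/-- total loss as one affine functional -/
theorem loss_sum {n m : ℕ} (P : Relax n) (phi : Fin m → Clause n) (y : Fin P.dim → ℝ) :
    ∑ a, P.loss (phi a) y = ∑ k, (∑ a, P.w (phi a) k) * y k + ∑ a, P.w0 (phi a) := by
  unfold Relax.loss
  rw [sum_add_distrib, sum_comm]
  congr 1
  exact sum_congr rfl fun k _ => by rw [sum_mul]

open Classical in
/-- the diagonal block of a cell: indicator and slacks of the losses -/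
noncomputable def dgf {n b B R : ℕ} (P : Relax n) (T : Fin R → Finset (Fin B))
    (asg : (Fin B → Fin b → Bool) → (Fin n → Bool))
    (cl : Finset (Fin B) → (Fin B → Fin b → Bool) → Clause n) :
    Option (Σ i : Fin R, ({q // q ∈ T i} → (Fin b → Bool))) → (Fin B → Fin b → Bool) → ℝ
  | none => fun x => if asg x ∈ P.cell then 1 else 0
  | some ⟨i, v⟩ => fun x => if asg x ∈ P.cell then
      (if Agree (T i) x (ext (T i) v) then 1 else 0) -
        P.loss (cl (T i) (ext (T i) v)) (P.pt (asg x)) else 0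

theorem dgf_nonneg {n b B R : ℕ} (P : Relax n) (T : Fin R → Finset (Fin B))
    (asg : (Fin B → Fin b → Bool) → (Fin n → Bool))
    (dec : (Fin n → Bool) → (Fin B → Fin b → Bool))
    (cl : Finset (Fin B) → (Fin B → Fin b → Bool) → Clause n)
    (hda : ∀ x, dec (asg x) = x)
    (hsat : ∀ T v y, (cl T v).Sat y ↔ ¬ Agree T (dec y) v)
    (o : Option (Σ i : Fin R, ({q // q ∈ T i} → (Fin b → Bool)))) (x : Fin B → Fin b → Bool) :
    0 ≤ dgf P T asg cl o x := by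
  rcases o with _ | ⟨i, v⟩
  · simp only [dgf]
    split_ifs <;> norm_num
  · simp only [dgf]
    split_ifs with h1 h2
    · have h3 := P.bdd (asg x) h1 (cl (T i) (ext (T i) v))
      have h4 := (le_abs_self _).trans h3
      unfold Relax.loss
      linarith
    · have h3 := P.sound (asg x) h1 (cl (T i) (ext (T i) v)) (by
        rw [hsat, hda]
        exact h2)
      unfold Relax.loss
      linarith
    · exact le_rfl

/-- the point of a constraint -/
noncomputable def Gp {n b B : ℕ} (P : Relax n) (asg : (Fin B → Fin b → Bool) → (Fin n → Bool))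
    (i : Fin P.size) (x : Fin B → Fin b → Bool) : Fin (P.kap i) → ℝ :=
  fun a => ∑ k, P.A i a k * P.pt (asg x) k + P.b i a

/-- a refutation on a cell is a linear inequality -/
theorem cell_ineq (hCE2 : T_CE2) {n m b B : ℕ} (P : Relax n) (I : Finset (Fin P.size))
    (phi : Fin m → Clause n) (de : ℝ) (asg : (Fin B → Fin b → Bool) → (Fin n → Bool))
    (H : (Fin B → Fin b → Bool) → ℝ) (href : P.RefutesBy I phi de)
    (h0 : 0 ≤ ∑ x ∈ univ.filter (fun x => asg x ∈ P.cell), H x)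
    (hI : ∀ et : ℝ, 0 < et → 0 < ∑ x ∈ univ.filter (fun x => asg x ∈ P.cell), (H x + et) →
      ∀ i ∈ I, (fun a => (∑ x ∈ univ.filter (fun x => asg x ∈ P.cell),
        (H x + et) * Gp P asg i x a) / ∑ x ∈ univ.filter (fun x => asg x ∈ P.cell), (H x + et)) ∈
          P.K i) :
    de * ∑ x ∈ univ.filter (fun x => asg x ∈ P.cell), H x ≤
      ∑ x ∈ univ.filter (fun x => asg x ∈ P.cell),
        H x * ∑ a, P.loss (phi a) (P.pt (asg x)) := by
  have h := hCE2 (Fin B → Fin b → Bool) (univ.filter (fun x => asg x ∈ P.cell)) P.dim P.size P.kap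
    P.K P.A P.b (fun x => P.pt (asg x)) (fun k => ∑ a, P.w (phi a) k) (∑ a, P.w0 (phi a)) I H de
    (fun y hy => by
      rw [← loss_sum]
      exact href y hy) hI h0
  refine h.trans (le_of_eq ?_)
  refine sum_congr rfl fun x _ => ?_
  rw [loss_sum]

end Pool.Agent.H76.CX
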