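import Mathlib

/-!
# SETH for semidefinite programming: the statement (MP_c62aed_lc)
-/

namespace Pool.Agent.H76.SD

/-- A clause over `n` variables: a finite set of literals; the literal `(i, v)` says `x i = v`. -/
abbrev Clause (n : ℕ) := Finset (Fin n × Bool)

/-- `x` satisfies the clause `C`. -/
def Clause.Sat {n : ℕ} (C : Clause n) (x : Fin n → Bool) : Prop := ∃ l ∈ C, x l.1 = l.2

open Classical in
/-- The number of clauses of the CNF formula `phi` violated by `x`. -/
noncomputable def viol {n m : ℕ} (phi : Fin m → Clause n) (x : Fin n → Bool) : ℕ :=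
  (Finset.univ.filter (fun i => ¬ (phi i).Sat x)).card

/-- A semidefinite relaxation of CNF-SAT on a cell of the cube.  It consists of the constraints
`A0 i + ∑ k, y k • A i k` positive semidefinite for `i < size`, with real matrices of any order
`ord i`, where `y` ranges over a space of any dimension `dim`; a point `pt x` satisfying the
constraints for every assignment `x` in the cell; and for every clause `C` an affine functional
(its loss), which takes at the points `pt x` values in `[-1, 1]`, and values `≤ 0` if `x` satisfies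
`C`.  The constraints do not depend on the formula. -/
structure Relax (n : ℕ) where
  /-- the cell -/
  cell : Finset (Fin n → Bool)
  /-- the dimension of the space -/
  dim : ℕ
  /-- the number of constraints -/
  size : ℕ
  /-- the orders of the constraints -/
  ord : Fin size → ℕ
  /-- the linear parts of the constraints -/
  A : (i : Fin size) → Fin dim → Matrix (Fin (ord i)) (Fin (ord i)) ℝ
  /-- the constant parts of the constraints -/
  A0 : (i : Fin size) → Matrix (Fin (ord i)) (Fin (ord i)) ℝ
  /-- the feasible point of an assignment -/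
  pt : (Fin n → Bool) → Fin dim → ℝ
  /-- the linear part of the loss of a clause -/
  w : Clause n → Fin dim → ℝ
  /-- the constant part of the loss of a clause -/
  w0 : Clause n → ℝ
  feas : ∀ x ∈ cell, ∀ i, (A0 i + ∑ k, pt x k • A i k).PosSemidef
  bdd : ∀ x ∈ cell, ∀ C, |∑ k, w C k * pt x k + w0 C| ≤ 1
  sound : ∀ x ∈ cell, ∀ C : Clause n, C.Sat x → ∑ k, w C k * pt x k + w0 C ≤ 0

/-- The loss of the clause `C` at the point `y`. -/
noncomputable def Relax.loss {n : ℕ} (P : Relax n) (C : Clause n) (y : Fin P.dim → ℝ) : ℝ :=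
  ∑ k, P.w C k * y k + P.w0 C

/-- The constraints of the relaxation with index in `I` refute the formula `phi` with margin `de`:
the total loss is at least `de` at all points satisfying these constraints. -/
def Relax.RefutesBy {n m : ℕ} (P : Relax n) (I : Finset (Fin P.size))
    (phi : Fin m → Clause n) (de : ℝ) : Prop :=
  ∀ y : Fin P.dim → ℝ, (∀ i ∈ I, (P.A0 i + ∑ k, y k • P.A i k).PosSemidef) →
    de ≤ ∑ a, P.loss (phi a) y

/-- SETH for semidefinite programming with branch and bound and adaptive choice of the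
constraints: the number of matrix entries is at least `2 ^ ((1 - ε) n)`. -/
def Statement : Prop :=
  ∀ ε : ℝ, 0 < ε → ∃ c n₀ : ℕ, ∀ n : ℕ, n₀ ≤ n →
    ∀ (M : ℕ) (P : Fin M → Relax n), M ≤ 2 ^ 2 ^ Nat.sqrt n →
    (∀ j, (P j).size ≤ 2 ^ 2 ^ Nat.sqrt n) →
    ∃ (w m : ℕ) (phi : Fin m → Clause n), 1 ≤ m ∧ m ≤ 2 ^ (c * Nat.sqrt n) ∧
      w ≤ c * Nat.sqrt n ∧
      (∀ i, (phi i).card = w ∧ ((phi i).image Prod.fst).card = w) ∧
      (∀ x, (1 - ε) * (m / 2 ^ w) ≤ (viol phi x : ℝ)) ∧
      ∀ (J : Finset (Fin M)) (I : (j : Fin M) → Finset (Fin (P j).size)),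
        (∀ j ∈ J, ∀ j' ∈ J, j ≠ j' → Disjoint (P j).cell (P j').cell) →
        (∀ x, ∃ j ∈ J, x ∈ (P j).cell) →
        (∀ j ∈ J, (P j).RefutesBy (I j) phi ((1 / 2 : ℝ) ^ Nat.sqrt n)) →
        (2 : ℝ) ^ ((1 - ε) * n) ≤ ∑ j ∈ J, (1 + ∑ i ∈ I j, ((P j).ord i : ℝ) ^ 2)

end Pool.Agent.H76.SD
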