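import Pool.Agent.H1.LP.Targets
import Pool.Agent.H76.SD.Stmt

/-!
# SETH for semidefinite programming: definitions for the modules

Blocks `Fin B`, alphabet `Q`, tables `al : Fin B → Q → ZMod p`, points `x : Fin B → Q`.
-/

namespace Pool.Agent.H76.SD

open Finset
open Pool.Agent.H1.LP (Loc PD Viol Sys supp ip val Agree FS Typ kk)

open Classical in
/-- number of elements with the property `R`, as a real number -/
noncomputable def num {α : Type} [Fintype α] (R : α → Prop) : ℝ :=
  ((univ.filter R).card : ℝ)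

/-- pairing of a frequency `ga` and a table `al` -/
def tp {p B : ℕ} {Q : Type} [Fintype Q] (ga al : Fin B → Q → ZMod p) : ZMod p :=
  ∑ j, ∑ q, ga j q * al j q

/-- character with frequency `ga` -/
noncomputable def chr {p B : ℕ} [NeZero p] {Q : Type} [Fintype Q]
    (ga al : Fin B → Q → ZMod p) : ℂ := ZMod.stdAddChar (tp ga al)

/-- the blocks in which the frequency `ga` charges the entry of `x` -/
def hit {p B : ℕ} {Q : Type} (ga : Fin B → Q → ZMod p) (x : Fin B → Q) : Finset (Fin B) :=
  univ.filter (fun j => ga j (x j) ≠ 0)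

/-- at most `k` entries in every block -/
def Sparse {p B : ℕ} {Q : Type} [Fintype Q] (k : ℕ) (ga : Fin B → Q → ZMod p) : Prop :=
  ∀ j, (univ.filter (fun q => ga j q ≠ 0)).card ≤ k

open Classical in
/-- the set of all sparse frequencies -/
noncomputable def spf (p B k : ℕ) [NeZero p] (Q : Type) [Fintype Q] [DecidableEq Q] :
    Finset (Fin B → Q → ZMod p) := univ.filter (Sparse k)

/-- the random matrix -/
noncomputable def MM {p B d r : ℕ} [NeZero p] {Q : Type} [Fintype Q] (S : Loc p B d)
    (V : (Fin B → Q) → Matrix (Fin r) (Fin r) ℝ) (al : Fin B → Q → ZMod p) :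
    Matrix (Fin r) (Fin r) ℝ :=
  ∑ x, PD S al x • V x

open Classical in
/-- sum of `v` over the points which agree with `x` in the first `j` blocks -/
noncomputable def pre {B : ℕ} {Q : Type} [Fintype Q] (v : (Fin B → Q) → ℝ) (j : ℕ)
    (x : Fin B → Q) : ℝ :=
  ∑ y with (∀ i : Fin B, i.1 < j → y i = x i), v y

open Classical in
/-- level of the conditional probability of the block `j` at `x` -/
noncomputable def lev {B : ℕ} {Q : Type} [Fintype Q] (v : (Fin B → Q) → ℝ) (D E : ℕ)
    (x : Fin B → Q) (j : Fin B) : ℕ :=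
  Nat.findGreatest (fun a => pre v (j.1 + 1) x * (D : ℝ) ^ a ≤ pre v j.1 x) E

/-- balanced tables -/
def Bal {p B : ℕ} [NeZero p] {Q : Type} [Fintype Q] (g : ℕ) (al : Fin B → Q → ZMod p) : Prop :=
  ∀ (j : Fin B) (a : ZMod p), a ≠ 0 →
    ‖∑ q, (ZMod.stdAddChar (a * al j q) : ℂ)‖ * 2 ^ g ≤ Fintype.card Q

open Classical in
/-- indicator of a finite set -/
noncomputable def ind {α : Type} (A : Finset α) (x : α) : ℝ := if x ∈ A then 1 else 0

end Pool.Agent.H76.SD
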