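import Pool.Agent.H1.LP.Asm
import Pool.Agent.H76.SD.Cod
import Pool.Agent.H12.SD.KER
import Pool.Agent.H86.SD.CHR
import Pool.Agent.H58.SD.PSX
import Pool.Agent.H89.SD.SCA
import Pool.Agent.H91.SD.SPN
import Pool.Agent.H51.SD.HIT
import Pool.Agent.H2.SD.MID
import Pool.Agent.H91.SD.SPE
import Pool.Agent.H33.SD.COR
import Pool.Agent.H58.SD.CL
import Pool.Agent.H54.SD.BLN
import Pool.Agent.H86.SD.BL0
import Pool.Agent.H33.SD.BLK
import Pool.Agent.H33.SD.BAL
import Pool.Agent.H19.SD.TYC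
import Pool.Agent.H48.SD.EVA
import Pool.Agent.H2.SD.CEL
import Pool.Agent.H19.SD.PRM
import Pool.Agent.H19.SD.FIN

/-!
# SETH for semidefinite programming: assembly of the modules
-/

namespace Pool.Agent.H76.SD

theorem sca' : T_SCA := H89.SD.sca H86.SD.chr_ (H58.SD.psx H12.SD.ker H86.SD.chr_)

theorem mid' : T_MID := H2.SD.mid H86.SD.chr_ sca' H91.SD.spn H51.SD.hit_

theorem cor' : T_COR := H33.SD.cor mid' H91.SD.spe

theorem blk' : T_BLK := H33.SD.blk (H86.SD.bl0 cor' H58.SD.cl1 H58.SD.cl2 H54.SD.bln)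

theorem eva' : T_EVA := H48.SD.eva H1.LP.main' H19.SD.tyc

theorem cod' : T_COD :=
  cod blk' H33.SD.bal eva' H2.SD.cel H1.LP.base' H2.LP.loc H88.LP.enc H88.LP.form

theorem statement : Statement := H19.SD.fin cod' H19.SD.prm

end Pool.Agent.H76.SD
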