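import Pool.Agent.H76.SD.Fin
import Pool.Agent.H76.SD.Cod2
import Pool.Agent.H60.CV.Fin
import Pool.Agent.H68.CX.NTS
import Pool.Agent.H92.SD.SCB
import Pool.Agent.H24.SD.BLC
import Pool.Agent.H24.SD.BRC
import Pool.Agent.H18.CX.CE2
import Pool.Agent.H33.CX.PA
import Pool.Agent.H92.SD.PB
import Pool.Agent.H92.SD.RA
import Pool.Agent.H27.SD.RB
import Pool.Agent.H18.CX.FU

/-!
# SETH for convex programming: assembly of the modules
-/

namespace Pool.Agent.H76.CX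

theorem blc' : T_BLC := H24.SD.blc (H68.CX.nts H60.CV.span)
  (H92.SD.scb SD.cor' H58.SD.cl1 H58.SD.cl2 H54.SD.bln)

theorem cd2' : T_CD2 :=
  cd2 SD.blk' blc' (H24.SD.brc H60.CV.sep) H33.SD.bal SD.eva' H76.CX.ce2 H1.LP.base' H2.LP.loc
    H88.LP.enc H88.LP.form

theorem statement : Statement :=
  H76.CX.fu (H92.SD.ra H60.CV.core' H33.CX.pa) (H27.SD.rb cd2' H92.SD.pb)

end Pool.Agent.H76.CX
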