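import Pool.Agent.H76.SD.Defs

/-!
# SETH for semidefinite programming: targets of the modules

Every module proves one theorem, whose type is written in its header below; the statements of other
modules appear as hypotheses.
-/

namespace Pool.Agent.H76.SD

open Finset
open Pool.Agent.H1.LP (Loc PD Viol Sys supp ip val Agree FS Typ kk S_MAIN S_BASE S_LOC S_ENC S_FORM)

/-! ## characters and the pseudo-density -/

/-- KER: a kernel with cocycle property is positive semidefinite -/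
def T_KER : Prop :=
  ∀ (ι : Type) [Fintype ι] (K : ι → ι → ℂ),
    (∀ i, K i i = 1) → (∀ i j, K j i = (starRingEnd ℂ) (K i j)) →
    (∀ i j k, K i j ≠ 0 → K j k ≠ 0 → K i j * K j k = K i k) →
    ∀ c : ι → ℂ, ∃ t : ℝ, 0 ≤ t ∧
      ∑ i, ∑ j, (starRingEnd ℂ) (c i) * K i j * c j = (t : ℂ)

/-- CHR: orthogonality of characters and Parseval -/
def T_CHR : Prop :=
  ∀ (p B : ℕ) [Fact p.Prime] (Q : Type) [Fintype Q] [DecidableEq Q],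
    (∀ ga : Fin B → Q → ZMod p, ∑ al, chr ga al =
      if ga = 0 then (Fintype.card (Fin B → Q → ZMod p) : ℂ) else 0) ∧
    ∀ (Ga : Finset (Fin B → Q → ZMod p)) (c : (Fin B → Q → ZMod p) → ℂ),
      ∑ al, ‖∑ ga ∈ Ga, c ga * chr ga al‖ ^ 2 =
        (Fintype.card (Fin B → Q → ZMod p) : ℝ) * ∑ ga ∈ Ga, ‖c ga‖ ^ 2

/-- PSX: `T_KER → T_CHR → T_PSX`; positivity of the pseudo-density on squares of low degree -/
def T_PSX : Prop :=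
  ∀ (p B d : ℕ) [Fact p.Prime] (Q : Type) [Fintype Q] [DecidableEq Q] (S : Loc p B d)
    (x : Fin B → Q) (Ls : Finset (Finset (Fin B))),
    (∀ L ∈ Ls, ∀ L' ∈ Ls, (L ∪ L').card ≤ d) →
    ∀ (Ga : Finset (Fin B → Q → ZMod p)) (c : (Fin B → Q → ZMod p) → ℂ),
      (∀ ga ∈ Ga, hit ga x ∈ Ls) →
      0 ≤ ∑ al, PD S al x * ‖∑ ga ∈ Ga, c ga * chr ga al‖ ^ 2

/-- SCA: `T_CHR → T_PSX → T_SCA`; lower bound for all squares -/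
def T_SCA : Prop :=
  ∀ (p B d : ℕ) [Fact p.Prime] (Q : Type) [Fintype Q] [DecidableEq Q] (S : Loc p B d)
    (x : Fin B → Q) (Ls : Finset (Finset (Fin B))) (La : ℝ),
    (∀ L ∈ Ls, ∀ L' ∈ Ls, (L ∪ L').card ≤ d) → (∀ al, |PD S al x| ≤ La) →
    ∀ (Ga : Finset (Fin B → Q → ZMod p)) (c : (Fin B → Q → ZMod p) → ℂ),
      -(La * Fintype.card (Fin B → Q → ZMod p) *
        (2 * (√(∑ ga ∈ Ga, ‖c ga‖ ^ 2) *
            √(∑ ga ∈ Ga.filter (fun ga => hit ga x ∉ Ls), ‖c ga‖ ^ 2)) +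
          ∑ ga ∈ Ga.filter (fun ga => hit ga x ∉ Ls), ‖c ga‖ ^ 2)) ≤
        ∑ al, PD S al x * ‖∑ ga ∈ Ga, c ga * chr ga al‖ ^ 2

/-- SPN: powers of the random matrix are combinations of sparse characters -/
def T_SPN : Prop :=
  ∀ (p B d r k : ℕ) [Fact p.Prime] (Q : Type) [Fintype Q] [DecidableEq Q] (S : Loc p B d)
    (V : (Fin B → Q) → Matrix (Fin r) (Fin r) ℝ) (La : ℝ),
    ∃ c : (Fin B → Q → ZMod p) → Matrix (Fin r) (Fin r) ℂ, ∀ al,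
      ((La • (1 : Matrix (Fin r) (Fin r) ℝ) - MM S V al) ^ k).map (fun t : ℝ => (t : ℂ)) =
        ∑ ga ∈ spf p B k Q, chr ga al • c ga

/-- HIT: a sparse frequency is hit outside of `Ls` by few points -/
def T_HIT : Prop :=
  ∀ (p B k : ℕ) (Q : Type) [Fintype Q] [DecidableEq Q] (ga : Fin B → Q → ZMod p)
    (Ls : Finset (Finset (Fin B))) (v : (Fin B → Q) → ℝ) (th : ℝ),
    1 ≤ k → Sparse k ga → (∀ x, 0 ≤ v x) → 0 ≤ th →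
    (∀ L, L ∉ Ls → ∀ y : Fin B → Q, ∑ x with Agree L x y, v x ≤ th) →
    ∑ x with hit ga x ∉ Ls, v x ≤ 2 ^ B * (k : ℝ) ^ B * th

/-- MID: `T_CHR → T_SCA → T_SPN → T_HIT → T_MID`; the main inequality -/
def T_MID : Prop :=
  ∀ (p B d r k : ℕ) [Fact p.Prime] (Q : Type) [Fintype Q] [DecidableEq Q] (S : Loc p B d)
    (V : (Fin B → Q) → Matrix (Fin r) (Fin r) ℝ) (Ls : Finset (Finset (Fin B)))
    (La th be : ℝ),
    (∀ L ∈ Ls, ∀ L' ∈ Ls, (L ∪ L').card ≤ d) → (∀ (al : Fin B → Q → ZMod p) (x : Fin B → Q), |PD S al x| ≤ La) →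
    (∀ x, (V x).PosSemidef) → (1 - ∑ x, V x).PosSemidef → 1 ≤ k → 0 ≤ th →
    (∀ L, L ∉ Ls → ∀ y : Fin B → Q, ∑ x with Agree L x y, (V x).trace ≤ th) →
    0 ≤ La → 0 ≤ be → be ≤ 1 → 2 ^ B * (k : ℝ) ^ B * th ≤ be ^ 2 →
    -(3 * La * be * ∑ al : Fin B → Q → ZMod p,
        ((La • (1 : Matrix (Fin r) (Fin r) ℝ) - MM S V al) ^ (2 * k)).trace) ≤
      ∑ al : Fin B → Q → ZMod p,
        (MM S V al * (La • (1 : Matrix (Fin r) (Fin r) ℝ) - MM S V al) ^ (2 * k)).trace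

/-! ## spectral part -/

/-- SPE: spectral inequalities for one symmetric matrix -/
def T_SPE : Prop :=
  ∀ (r k : ℕ) (M : Matrix (Fin r) (Fin r) ℝ) (La ε : ℝ), 0 < ε → ε ≤ La →
    (La • (1 : Matrix (Fin r) (Fin r) ℝ) - M).PosSemidef →
    (La • (1 : Matrix (Fin r) (Fin r) ℝ) + M).PosSemidef →
    0 ≤ ((La • (1 : Matrix (Fin r) (Fin r) ℝ) - M) ^ (2 * k)).trace ∧
    (M * (La • (1 : Matrix (Fin r) (Fin r) ℝ) - M) ^ (2 * k)).trace +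
        ε / 2 * ((La • (1 : Matrix (Fin r) (Fin r) ℝ) - M) ^ (2 * k)).trace ≤
      2 * La * r * (La + ε / 2) ^ (2 * k) ∧
    (¬ (ε • (1 : Matrix (Fin r) (Fin r) ℝ) + M).PosSemidef →
      (La + ε) ^ (2 * k) ≤ ((La • (1 : Matrix (Fin r) (Fin r) ℝ) - M) ^ (2 * k)).trace)

/-- COR: `T_MID → T_SPE → T_COR`; for most tables the random matrix is almost positive -/
def T_COR : Prop :=
  ∀ (p B d r k : ℕ) [Fact p.Prime] (Q : Type) [Fintype Q] [DecidableEq Q] (S : Loc p B d)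
    (V : (Fin B → Q) → Matrix (Fin r) (Fin r) ℝ) (Ls : Finset (Finset (Fin B)))
    (La th be ε : ℝ),
    (∀ L ∈ Ls, ∀ L' ∈ Ls, (L ∪ L').card ≤ d) → (∀ (al : Fin B → Q → ZMod p) (x : Fin B → Q), |PD S al x| ≤ La) →
    (∀ x, (V x).PosSemidef) → (1 - ∑ x, V x).PosSemidef → 1 ≤ k → 0 ≤ th →
    (∀ L, L ∉ Ls → ∀ y : Fin B → Q, ∑ x with Agree L x y, (V x).trace ≤ th) →
    0 ≤ be → 2 ^ B * (k : ℝ) ^ B * th ≤ be ^ 2 → 0 < ε → ε ≤ La → 12 * La * be ≤ ε →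
    num (fun al : Fin B → Q → ZMod p =>
        ¬ (ε • (1 : Matrix (Fin r) (Fin r) ℝ) + MM S V al).PosSemidef) *
        (La + ε) ^ (2 * k) ≤
      8 * La * r / ε * (La + ε / 2) ^ (2 * k) * Fintype.card (Fin B → Q → ZMod p)

/-! ## classes -/

/-- CL1: in a class the marginals are bounded by products -/
def T_CL1 : Prop :=
  ∀ (B D E : ℕ) (Q : Type) [Fintype Q] [DecidableEq Q] (v : (Fin B → Q) → ℝ) (a : Fin B → ℕ)
    (L : Finset (Fin B)) (y : Fin B → Q), 1 ≤ D → (∀ x, 0 ≤ v x) →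
    (∑ x with (Agree L x y ∧ ∀ j, lev v D E x j = a j), v x) * (D : ℝ) ^ (∑ j ∈ L, a j) ≤
      ∑ x, v x

/-- CL2: number of points in a class -/
def T_CL2 : Prop :=
  ∀ (B D E : ℕ) (Q : Type) [Fintype Q] [DecidableEq Q] (v : (Fin B → Q) → ℝ) (a : Fin B → ℕ),
    1 ≤ D → Fintype.card Q = D ^ E → (∀ x, 0 ≤ v x) →
    num (fun x : Fin B → Q => ∀ j, lev v D E x j = a j) ≤ (D : ℝ) ^ (∑ j, (a j + 1))

/-- BLN: numerical inequality for the number of bad tables -/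
def T_BLN : Prop :=
  ∀ (E g B t r : ℕ), 16 ≤ E → 1 ≤ B → (4 * E + 1) * B + t + 4 ≤ g → (E + 1) ^ B ≤ 2 ^ (4 * g) →
    r ≤ 2 ^ 2 ^ (2 * g) → ∀ N T : ℝ, 0 ≤ T →
    N * ((2 : ℝ) ^ ((4 * E + 1) * B) + (1 / 2) ^ t) ^ (2 * 2 ^ (4 * g)) ≤
      8 * (2 : ℝ) ^ ((4 * E + 1) * B) * r / (1 / 2) ^ t *
        ((2 : ℝ) ^ ((4 * E + 1) * B) + (1 / 2) ^ t / 2) ^ (2 * 2 ^ (4 * g)) * T →
    ((E : ℝ) + 1) ^ B * N ≤ (1 / 2) ^ 2 ^ (2 * g) * T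

/-- BL0: `T_COR → T_CL1 → T_CL2 → T_BLN → T_BL0`; one block, normalised -/
def T_BL0 : Prop :=
  ∀ (E g B t r p : ℕ) [Fact p.Prime] (Q : Type) [Fintype Q] [DecidableEq Q]
    (S : Loc p B (B - 8 * (B / E))) (V : (Fin B → Q) → Matrix (Fin r) (Fin r) ℝ),
    16 ≤ E → 1 ≤ B → p ≤ 2 ^ (4 * E + 1) → Fintype.card Q = (2 ^ (4 * g)) ^ E →
    (4 * E + 1) * B + t + 4 ≤ g → (E + 1) ^ B ≤ 2 ^ (4 * g) → r ≤ 2 ^ 2 ^ (2 * g) →
    (∀ x, (V x).PosSemidef) → ∑ x, V x = 1 →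
    ∃ Li : Finset (Fin B → Q), (Li.card : ℝ) ≤ (2 ^ (4 * g)) ^ (11 * B + 3) * (r : ℝ) ^ 2 ∧
      num (fun al : Fin B → Q → ZMod p =>
        ¬ (∑ x, (PD S al x + ((E : ℝ) + 1) ^ B * (1 / 2) ^ t +
          2 ^ ((4 * E + 1) * B) * ind Li x) • V x).PosSemidef) ≤
        (1 / 2) ^ 2 ^ (2 * g) * Fintype.card (Fin B → Q → ZMod p)

/-- BLK: `T_BL0 → T_BLK`; one block -/
def T_BLK : Prop :=
  ∀ (E g B t r p : ℕ) [Fact p.Prime] (Q : Type) [Fintype Q] [DecidableEq Q]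
    (S : Loc p B (B - 8 * (B / E))) (V : (Fin B → Q) → Matrix (Fin r) (Fin r) ℝ),
    16 ≤ E → 1 ≤ B → p ≤ 2 ^ (4 * E + 1) → Fintype.card Q = (2 ^ (4 * g)) ^ E →
    (4 * E + 1) * B + t + 4 ≤ g → (E + 1) ^ B ≤ 2 ^ (4 * g) → r ≤ 2 ^ 2 ^ (2 * g) →
    (∀ x, (V x).PosSemidef) →
    ∃ Li : Finset (Fin B → Q), (Li.card : ℝ) ≤ (2 ^ (4 * g)) ^ (11 * B + 3) * (r : ℝ) ^ 2 ∧
      num (fun al : Fin B → Q → ZMod p =>
        ¬ (∑ x, (PD S al x + ((E : ℝ) + 1) ^ B * (1 / 2) ^ t +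
          2 ^ ((4 * E + 1) * B) * ind Li x) • V x).PosSemidef) ≤
        (1 / 2) ^ 2 ^ (2 * g) * Fintype.card (Fin B → Q → ZMod p)

/-! ## balanced tables -/

/-- BAL: most tables are balanced -/
def T_BAL : Prop :=
  ∀ (E g B p : ℕ) [Fact p.Prime] (Q : Type) [Fintype Q] [DecidableEq Q],
    16 ≤ E → 1 ≤ g → Fintype.card Q = (2 ^ (4 * g)) ^ E → 4 * p * B ≤ 2 ^ g →
    4 * num (fun al : Fin B → Q → ZMod p => ¬ Bal g al) ≤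
      Fintype.card (Fin B → Q → ZMod p)

/-- TYC: balanced tables are typical for cells -/
def T_TYC : Prop :=
  ∀ (p B g : ℕ) [Fact p.Prime] (Q : Type) [Fintype Q] [DecidableEq Q]
    (al : Fin B → Q → ZMod p) (T : Finset (Fin B)) (w : Fin B → Q), Bal g al →
    Typ g T (fun x => if Agree T x w then 1 else 0) al

/-- EVA: `S_MAIN → T_TYC → T_EVA`; values of the pseudo-density for balanced tables -/
def T_EVA : Prop :=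
  ∀ (p B d g s0 : ℕ) [Fact p.Prime] (Q : Type) [Fintype Q] [DecidableEq Q] [Nonempty Q]
    (S : Loc p B d) (al : Fin B → Q → ZMod p), Bal g al → 4 * p * B ≤ 2 ^ g →
    2 * (p : ℝ) ^ B / 2 ^ (g * (s0 + 1)) ≤ 1 / 8 → s0 ≤ d →
    (Fintype.card (Fin B → Q) : ℝ) / 4 ≤ ∑ x, PD S al x ∧
    ∀ (T : Finset (Fin B)) (w : Fin B → Q), T.card + s0 ≤ d → Viol S T (val al w) →
      |∑ x with Agree T x w, PD S al x| ≤
        2 * (p : ℝ) ^ B / 2 ^ (g * (s0 + 1)) * ((univ.filter (fun x => Agree T x w)).card : ℝ)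

/-! ## relaxations -/

/-- CEL: a refutation on one cell is a linear inequality for all signed measures which are
nonnegative on the constraints -/
def T_CEL : Prop :=
  ∀ (X : Type) [Fintype X] (St : Finset X) (dim size : ℕ) (ord : Fin size → ℕ)
    (A : (i : Fin size) → Fin dim → Matrix (Fin (ord i)) (Fin (ord i)) ℝ)
    (A0 : (i : Fin size) → Matrix (Fin (ord i)) (Fin (ord i)) ℝ) (pt : X → Fin dim → ℝ)
    (w : Fin dim → ℝ) (w0 : ℝ) (I : Finset (Fin size)) (H : X → ℝ) (de : ℝ),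
    (∀ x ∈ St, ∀ i ∈ I, (A0 i + ∑ k, pt x k • A i k).PosSemidef) →
    (∀ y : Fin dim → ℝ, (∀ i ∈ I, (A0 i + ∑ k, y k • A i k).PosSemidef) →
      de ≤ ∑ k, w k * y k + w0) →
    0 ≤ ∑ x ∈ St, H x →
    (∀ i ∈ I, (∑ x ∈ St, H x • (A0 i + ∑ k, pt x k • A i k)).PosSemidef) →
    de * ∑ x ∈ St, H x ≤ ∑ x ∈ St, H x * (∑ k, w k * pt x k + w0)

/-- the error term -/
noncomputable def err (E g t B : ℕ) (W : ℝ) : ℝ :=
  16 * E * B * (2 * 2 ^ ((4 * E + 1) * B) / 2 ^ (g * (B / E + 1)) +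
    ((E : ℝ) + 1) ^ B * (1 / 2) ^ t) +
  16 * E * B * 2 ^ ((4 * E + 1) * B) * ((2 ^ (4 * g)) ^ (11 * B + 3) / (2 ^ (4 * g)) ^ (E * B)) *
    (8 * E * B * 2 ^ (4 * E * g * kk E) + 1) ^ 2 * W

/-- COD: `T_BLK → T_BAL → T_EVA → T_CEL → S_BASE → S_LOC → S_ENC → S_FORM → T_COD` -/
def T_COD : Prop :=
  ∀ (E g t n B M N0 : ℕ) (P : Fin M → Relax n), 16 ≤ E → 1 ≤ g → 3 * kk E ≤ B →
    B * (4 * E * g) ≤ n → 4 * 2 ^ (4 * E + 1) * B ≤ 2 ^ g → (4 * E + 1) * B + t + 4 ≤ g →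
    (E + 1) ^ B ≤ 2 ^ (4 * g) → n ≤ 2 ^ (2 * g) →
    8 * E * B * 2 ^ (4 * E * g * kk E) + 1 ≤ 2 ^ 2 ^ (2 * g) →
    (M : ℝ) * (N0 + 1) * (1 / 2) ^ 2 ^ (2 * g) ≤ 1 / 4 → (∀ j, (P j).size ≤ N0) →
    ∃ (m : ℕ) (phi : Fin m → Clause n), 1 ≤ m ∧ m ≤ 4 * E * B * 2 ^ (4 * E * g * kk E) ∧
      (∀ i, (phi i).card = 4 * E * g * kk E ∧ ((phi i).image Prod.fst).card = 4 * E * g * kk E) ∧
      (∀ x, (1 - 1 / (E : ℝ)) * (m / 2 ^ (4 * E * g * kk E)) ≤ (viol phi x : ℝ)) ∧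
      ∀ (J : Finset (Fin M)) (I : (j : Fin M) → Finset (Fin (P j).size)) (de : ℝ), 0 < de →
        (∀ j ∈ J, ∀ j' ∈ J, j ≠ j' → Disjoint (P j).cell (P j').cell) →
        (∀ x, ∃ j ∈ J, x ∈ (P j).cell) →
        (∀ j ∈ J, (P j).RefutesBy (I j) phi de) →
        de ≤ err E g t B (∑ j ∈ J, (1 + ∑ i ∈ I j, ((P j).ord i : ℝ) ^ 2)) ∨
        (2 : ℝ) ^ n ≤ ∑ j ∈ J, (1 + ∑ i ∈ I j, ((P j).ord i : ℝ) ^ 2)

/-- PRM: choice of the parameters -/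
def T_PRM : Prop :=
  ∀ ε : ℝ, 0 < ε → ∃ E c n₀ : ℕ, 16 ≤ E ∧ 1 / (E : ℝ) ≤ ε ∧ ∀ n : ℕ, n₀ ≤ n →
    ∃ g t B : ℕ, 1 ≤ g ∧ 3 * kk E ≤ B ∧ B * (4 * E * g) ≤ n ∧
      4 * 2 ^ (4 * E + 1) * B ≤ 2 ^ g ∧ (4 * E + 1) * B + t + 4 ≤ g ∧
      (E + 1) ^ B ≤ 2 ^ (4 * g) ∧ n ≤ 2 ^ (2 * g) ∧
      8 * E * B * 2 ^ (4 * E * g * kk E) + 1 ≤ 2 ^ 2 ^ (2 * g) ∧
      ((2 : ℝ) ^ 2 ^ Nat.sqrt n) * (2 ^ 2 ^ Nat.sqrt n + 1) * (1 / 2) ^ 2 ^ (2 * g) ≤ 1 / 4 ∧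
      4 * E * B * 2 ^ (4 * E * g * kk E) ≤ 2 ^ (c * Nat.sqrt n) ∧
      4 * E * g * kk E ≤ c * Nat.sqrt n ∧
      ∀ W : ℝ, 0 ≤ W → ((1 / 2 : ℝ) ^ Nat.sqrt n ≤ err E g t B W ∨ (2 : ℝ) ^ n ≤ W) →
        (2 : ℝ) ^ ((1 - ε) * n) ≤ W

/-- FIN: `T_COD → T_PRM → T_FIN` -/
def T_FIN : Prop := Statement

end Pool.Agent.H76.SD
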