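import Pool.Agent.H76.SD.Stmt2
import Pool.Agent.H76.SD.Targets
import Pool.Agent.H60.CV.Core2

/-!
# SETH for convex programming: targets of the modules

Every module proves one theorem, whose type is written in its header below; the statements of other
modules appear as hypotheses.
-/

namespace Pool.Agent.H76.CX

open Finset
open Pool.Agent.H1.LP (Loc PD Viol Sys supp ip val Agree FS Typ kk eta vsi S_BASE S_LOC S_ENC S_FORM)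
open Pool.Agent.H76.SD (num ind Bal MM lev T_COR T_CL1 T_CL2 T_BLN T_BLK T_BAL T_EVA)

/-- NTS: `H60.CV.S_SPAN → T_NTS`; normalised net of the nonnegative functions in a space of
dimension `κ`, with a majorant of total mass `κ` -/
def T_NTS : Prop :=
  ∀ (X : Type) [Fintype X] [DecidableEq X] (C : Finset X) (κ M0 : ℕ) (v : X → Fin κ → ℝ), 0 < M0 →
    ∃ (N : ℕ) (ps : Fin N → Fin κ → ℝ) (w : X → ℝ), N ≤ (M0 + 1) ^ κ ∧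
      (∀ x, 0 ≤ w x) ∧ ∑ x, w x ≤ κ ∧
      (∀ z, ∀ x ∈ C, 0 ≤ ∑ a, ps z a * v x a) ∧ (∀ z, ∑ x ∈ C, ∑ a, ps z a * v x a = 1) ∧
      (∀ z, ∀ x ∈ C, ∑ a, ps z a * v x a ≤ w x) ∧
      ∀ qs : Fin κ → ℝ, (∀ x ∈ C, 0 ≤ ∑ a, qs a * v x a) → 0 < ∑ x ∈ C, ∑ a, qs a * v x a →
        ∃ z, ∃ c : ℝ, 0 ≤ c ∧ ∀ x ∈ C, |∑ a, qs a * v x a - c * ∑ a, ps z a * v x a| ≤
          (∑ x ∈ C, ∑ a, qs a * v x a) * (2 * κ / M0)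

/-- SCB: `T_COR → T_CL1 → T_CL2 → T_BLN → T_SCB`; scalar functions with a common majorant -/
def T_SCB : Prop :=
  ∀ (E g B t κ p : ℕ) [Fact p.Prime] (Q : Type) [Fintype Q] [DecidableEq Q]
    (S : Loc p B (B - 8 * (B / E))) (w : (Fin B → Q) → ℝ),
    16 ≤ E → 1 ≤ B → p ≤ 2 ^ (4 * E + 1) → Fintype.card Q = (2 ^ (4 * g)) ^ E →
    (4 * E + 1) * B + t + 4 ≤ g → (E + 1) ^ B ≤ 2 ^ (4 * g) →
    (∀ x, 0 ≤ w x) → ∑ x, w x ≤ κ →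
    ∃ Li : Finset (Fin B → Q), (Li.card : ℝ) ≤ (2 ^ (4 * g)) ^ (11 * B + 3) * (κ : ℝ) ^ 2 ∧
      ∀ u : (Fin B → Q) → ℝ, (∀ x, 0 ≤ u x) → (∀ x, u x ≤ w x) → ∑ x, u x = 1 →
        num (fun al : Fin B → Q → ZMod p =>
          ¬ 0 ≤ ∑ x, (PD S al x + ((E : ℝ) + 1) ^ B * (1 / 2) ^ t +
            2 ^ ((4 * E + 1) * B) * ind Li x) * u x) ≤
          (1 / 2) ^ 2 ^ (2 * g) * Fintype.card (Fin B → Q → ZMod p)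

/-- BLC: `T_NTS → T_SCB → T_BLC`; one convex constraint -/
def T_BLC : Prop :=
  ∀ (E g B t κ M0 p : ℕ) [Fact p.Prime] (Q : Type) [Fintype Q] [DecidableEq Q]
    (S : Loc p B (B - 8 * (B / E))) (C : Finset (Fin B → Q)) (v : (Fin B → Q) → Fin κ → ℝ),
    16 ≤ E → 1 ≤ B → p ≤ 2 ^ (4 * E + 1) → Fintype.card Q = (2 ^ (4 * g)) ^ E →
    (4 * E + 1) * B + t + 4 ≤ g → (E + 1) ^ B ≤ 2 ^ (4 * g) →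
    0 < M0 → 2 * κ * 2 ^ (g + 4 * g * E * B) ≤ M0 →
    ∃ Li : Finset (Fin B → Q), (Li.card : ℝ) ≤ (2 ^ (4 * g)) ^ (11 * B + 3) * (κ : ℝ) ^ 2 ∧
      num (fun al : Fin B → Q → ZMod p =>
        ¬ ∀ qs : Fin κ → ℝ, (∀ x ∈ C, 0 ≤ ∑ a, qs a * v x a) →
          0 ≤ ∑ x ∈ C, (PD S al x + 2 * (((E : ℝ) + 1) ^ B * (1 / 2) ^ t) +
            2 ^ ((4 * E + 1) * B) * ind Li x) * ∑ a, qs a * v x a) ≤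
        ((M0 : ℝ) + 1) ^ κ * (1 / 2) ^ 2 ^ (2 * g) * Fintype.card (Fin B → Q → ZMod p)

/-- BRC: `H60.CV.S_SEP → T_BRC`; barycenter in a convex set -/
def T_BRC : Prop :=
  ∀ (X : Type) [Fintype X] (C : Finset X) (κ : ℕ) (K : Set (Fin κ → ℝ)) (G : X → Fin κ → ℝ)
    (h : X → ℝ), Convex ℝ K → (∀ x ∈ C, G x ∈ K) → 0 < ∑ x ∈ C, h x →
    (∀ (f : Fin κ → ℝ) (f0 : ℝ), (∀ x ∈ C, 0 ≤ ∑ a, f a * G x a + f0) →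
      0 ≤ ∑ x ∈ C, h x * (∑ a, f a * G x a + f0)) →
    (fun a => (∑ x ∈ C, h x * G x a) / ∑ x ∈ C, h x) ∈ K

/-- CE2: a refutation on one cell is a linear inequality for all signed measures with barycenters
in the constraints -/
def T_CE2 : Prop :=
  ∀ (X : Type) [Fintype X] (C : Finset X) (dim size : ℕ) (kap : Fin size → ℕ)
    (K : (i : Fin size) → Set (Fin (kap i) → ℝ)) (A : (i : Fin size) → Fin (kap i) → Fin dim → ℝ)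
    (b : (i : Fin size) → Fin (kap i) → ℝ) (pt : X → Fin dim → ℝ)
    (w : Fin dim → ℝ) (w0 : ℝ) (I : Finset (Fin size)) (H : X → ℝ) (de : ℝ),
    (∀ y : Fin dim → ℝ, (∀ i ∈ I, (fun a => ∑ k, A i a k * y k + b i a) ∈ K i) →
      de ≤ ∑ k, w k * y k + w0) →
    (∀ et : ℝ, 0 < et → 0 < ∑ x ∈ C, (H x + et) → ∀ i ∈ I,
      (fun a => (∑ x ∈ C, (H x + et) * (∑ k, A i a k * pt x k + b i a)) /
        ∑ x ∈ C, (H x + et)) ∈ K i) →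
    0 ≤ ∑ x ∈ C, H x →
    de * ∑ x ∈ C, H x ≤ ∑ x ∈ C, H x * (∑ k, w k * pt x k + w0)

/-- the error term -/
noncomputable def err2 (E g t B : ℕ) (W : ℝ) : ℝ :=
  16 * E * B * (2 * 2 ^ ((4 * E + 1) * B) / 2 ^ (g * (B / E + 1)) +
    2 * (((E : ℝ) + 1) ^ B * (1 / 2) ^ t)) +
  16 * E * B * 2 ^ ((4 * E + 1) * B) * ((2 ^ (4 * g)) ^ (11 * B + 3) / (2 ^ (4 * g)) ^ (E * B)) *
    (8 * E * B * 2 ^ (4 * E * g * kk E) + 1) ^ 2 * W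

/-- CD2: `T_BLK → T_BLC → T_BRC → T_BAL → T_EVA → T_CE2 → S_BASE → S_LOC → S_ENC → S_FORM → T_CD2` -/
def T_CD2 : Prop :=
  ∀ (E g t n B M N0 s M0 : ℕ) (P : Fin M → Relax n), 16 ≤ E → 1 ≤ g → 3 * kk E ≤ B →
    B * (4 * E * g) ≤ n → 4 * 2 ^ (4 * E + 1) * B ≤ 2 ^ g → (4 * E + 1) * B + t + 4 ≤ g →
    (E + 1) ^ B ≤ 2 ^ (4 * g) → n ≤ 2 ^ (2 * g) → s ≤ g →
    8 * E * B * 2 ^ (4 * E * g * kk E) + 1 ≤ 2 ^ 2 ^ (2 * g) →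
    2 * (2 ^ s + 1) * 2 ^ (g + 4 * g * E * B) ≤ M0 →
    (M : ℝ) * (N0 + 1) * (M0 + 1) ^ (2 ^ s + 1) * (1 / 2) ^ 2 ^ (2 * g) ≤ 1 / 4 →
    (∀ j, (P j).size ≤ N0) → (∀ j i, (P j).kap i ≤ 2 ^ s ∨ IsPsd ((P j).K i)) →
    ∃ (m : ℕ) (phi : Fin m → Clause n), 1 ≤ m ∧ m ≤ 4 * E * B * 2 ^ (4 * E * g * kk E) ∧
      (∀ i, (phi i).card = 4 * E * g * kk E ∧ ((phi i).image Prod.fst).card = 4 * E * g * kk E) ∧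
      (∀ x, (1 - 1 / (E : ℝ)) * (m / 2 ^ (4 * E * g * kk E)) ≤ (viol phi x : ℝ)) ∧
      ∀ (J : Finset (Fin M)) (I : (j : Fin M) → Finset (Fin (P j).size)) (de : ℝ), 0 < de →
        (∀ j ∈ J, ∀ j' ∈ J, j ≠ j' → Disjoint (P j).cell (P j').cell) →
        (∀ x, ∃ j ∈ J, x ∈ (P j).cell) →
        (∀ j ∈ J, ∀ i ∈ I j, 1 ≤ (P j).kap i) →
        (∀ j ∈ J, (P j).RefutesBy (I j) phi de) →
        de ≤ err2 E g t B (∑ j ∈ J, (1 + ∑ i ∈ I j, ((P j).kap i : ℝ))) ∨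
        (2 : ℝ) ^ n ≤ ∑ j ∈ J, (1 + ∑ i ∈ I j, ((P j).kap i : ℝ))

/-- PA: choice of the parameters, constraints of bounded dimension -/
def T_PA : Prop :=
  ∀ ε : ℝ, 0 < ε → ∃ E c n₀ : ℕ, 16 ≤ E ∧ 1 / (E : ℝ) ≤ ε ∧ ∀ n s t : ℕ, n₀ ≤ n → n ≤ 2 ^ s →
    c * s ≤ n → c * t ≤ n →
    ∃ g s' B M0 : ℕ, 1 ≤ g ∧ 0 < s' ∧ 2 * kk E ≤ B ∧ B * (4 * E * g) ≤ n ∧
      4 * 2 ^ (4 * E + 1) * B ≤ 2 ^ g ∧ 8 * s' ≤ 4 ^ g ∧ 4 * (2 ^ s + 1) * 2 ^ n ≤ M0 ∧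
      ((2 : ℝ) ^ 2 ^ s * (2 ^ 2 ^ s * ((M0 : ℝ) + 1) ^ (2 ^ s + 1) +
          2 * (4 * E * B * 2 ^ (4 * E * g * kk E)) + 1) *
        2 ^ (4 * E * g * B) + 1) * (2 ^ (4 * E + 1)) ^ B < 4 ^ s' ∧
      4 * E * B * 2 ^ (4 * E * g * kk E) ≤ 2 ^ (c * s) ∧ 4 * E * g * kk E ≤ c * s ∧
      ∀ (m : ℕ) (W : ℝ), 0 ≤ W → m ≤ 4 * E * B * 2 ^ (4 * E * g * kk E) →
        (1 / 2 : ℝ) ^ t ≤ 8 * m * eta E g B + 12 * m * vsi E g B * (4 / 3 * (2 ^ s + 1) * W) →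
        (2 : ℝ) ^ ((1 - ε) * n) ≤ W

/-- PB: choice of the parameters, semidefinite constraints of any order -/
def T_PB : Prop :=
  ∀ ε : ℝ, 0 < ε → ∃ E c n₀ : ℕ, 16 ≤ E ∧ 1 / (E : ℝ) ≤ ε ∧ ∀ n s : ℕ, n₀ ≤ n → n ≤ 2 ^ s →
    c * s ≤ n → n ≤ s ^ 2 →
    ∃ g t B M0 : ℕ, 1 ≤ g ∧ 3 * kk E ≤ B ∧ B * (4 * E * g) ≤ n ∧
      4 * 2 ^ (4 * E + 1) * B ≤ 2 ^ g ∧ (4 * E + 1) * B + t + 4 ≤ g ∧
      (E + 1) ^ B ≤ 2 ^ (4 * g) ∧ n ≤ 2 ^ (2 * g) ∧ s ≤ g ∧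
      8 * E * B * 2 ^ (4 * E * g * kk E) + 1 ≤ 2 ^ 2 ^ (2 * g) ∧
      2 * (2 ^ s + 1) * 2 ^ (g + 4 * g * E * B) ≤ M0 ∧
      ((2 : ℝ) ^ 2 ^ s) * (2 ^ 2 ^ s + 1) * ((M0 : ℝ) + 1) ^ (2 ^ s + 1) *
        (1 / 2) ^ 2 ^ (2 * g) ≤ 1 / 4 ∧
      4 * E * B * 2 ^ (4 * E * g * kk E) ≤ 2 ^ (c * s) ∧ 4 * E * g * kk E ≤ c * s ∧
      ∀ W : ℝ, 0 ≤ W → ((1 / 2 : ℝ) ^ s ≤ err2 E g t B W ∨ (2 : ℝ) ^ n ≤ W) →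
        (2 : ℝ) ^ ((1 - ε) * n) ≤ W

/-- the conclusion of the theorem -/
def Concl (ε : ℝ) (c n s t M : ℕ) (P : Fin M → Relax n) : Prop :=
  ∃ (w m : ℕ) (phi : Fin m → Clause n), 1 ≤ m ∧ m ≤ 2 ^ (c * s) ∧ w ≤ c * s ∧
    (∀ i, (phi i).card = w ∧ ((phi i).image Prod.fst).card = w) ∧
    (∀ x, (1 - ε) * (m / 2 ^ w) ≤ (viol phi x : ℝ)) ∧
    ∀ (J : Finset (Fin M)) (I : (j : Fin M) → Finset (Fin (P j).size)),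
      (∀ j ∈ J, ∀ j' ∈ J, j ≠ j' → Disjoint (P j).cell (P j').cell) →
      (∀ x, ∃ j ∈ J, x ∈ (P j).cell) →
      (∀ j ∈ J, (P j).RefutesBy (I j) phi ((1 / 2 : ℝ) ^ t)) →
      (2 : ℝ) ^ ((1 - ε) * n) ≤ ∑ j ∈ J, (1 + ∑ i ∈ I j, ((P j).kap i : ℝ))

/-- RA: `H60.CV.S_CORE → T_PA → T_RA`; constraints of bounded dimension -/
def T_RA : Prop :=
  ∀ ε : ℝ, 0 < ε → ∃ c n₀ : ℕ, ∀ n s t : ℕ, n₀ ≤ n → n ≤ 2 ^ s → c * s ≤ n → c * t ≤ n →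
    ∀ (M : ℕ) (P : Fin M → Relax n), M ≤ 2 ^ 2 ^ s → (∀ j, (P j).size ≤ 2 ^ 2 ^ s) →
    (∀ j i, (P j).kap i ≤ 2 ^ s) → Concl ε c n s t M P

/-- RB: `T_CD2 → T_PB → T_RB`; semidefinite constraints of any order -/
def T_RB : Prop :=
  ∀ ε : ℝ, 0 < ε → ∃ c n₀ : ℕ, ∀ n s t : ℕ, n₀ ≤ n → n ≤ 2 ^ s → c * s ≤ n → n ≤ s ^ 2 → t ≤ s →
    ∀ (M : ℕ) (P : Fin M → Relax n), M ≤ 2 ^ 2 ^ s → (∀ j, (P j).size ≤ 2 ^ 2 ^ s) →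
    (∀ j i, (P j).kap i ≤ 2 ^ s ∨ IsPsd ((P j).K i)) → Concl ε c n s t M P

/-- FU: `T_RA → T_RB → T_FU` -/
def T_FU : Prop := Statement

end Pool.Agent.H76.CX
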